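import Pool.Agent.BookAvB.Norm

/-!
# POLYLOGSPACE is closed under intersections
-/

set_option autoImplicit false

namespace Pool.Agent.BookAvB

open Pool.Agent.PT Pool.Agent.Book19 Pool.Agent.BookPL Pool.Agent.BookAv

/-! ### The product of two loops -/

private def decF (v : ℕ) : ℕ := if v = 0 then 1 else v - 1

private def encF (v : ℕ) : ℕ := if v = 1 then 0 else v + 1

private theorem decF_encF (v : ℕ) : decF (encF v) = v := by
  by_cases h : v = 1
  · simp [decF, encF, h]
  · simp [decF, encF, h]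

/-- the environment stored in the entries from `p` on -/
private def dd (p m : ℕ) (E : ℕ → ℕ) : ℕ → ℕ := fun j =>
  if j = 0 then decF (E p) else if j < m then E (p + j) else 0

/-- the loop does not move any more after its end -/
private def gg {A : Type} (m : ℕ) (F : ℕ → List A → (ℕ → ℕ) → ℕ) (x : List A) (e : ℕ → ℕ) :
    ℕ → ℕ := fun j => if e 0 ≠ 0 then vstep m F x e j else e j

private def cc (e : ℕ → ℕ) : ℕ → ℕ := fun j => if j = 0 then encF (e 0) else e j

/-- the environment of the product -/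
private def mm (m m' : ℕ) (e e' : ℕ → ℕ) : ℕ → ℕ := fun j =>
  if j = 0 then (if e 0 ≠ 0 ∨ e' 0 ≠ 0 then 1 else 0) else
  if j = 1 then (if e 1 ≠ 0 ∧ e' 1 ≠ 0 then 1 else 0) else
  if j < 2 + m then cc e (j - 2) else
  if j < 2 + m + m' then cc e' (j - 2 - m) else 0

/-- the functions of the product -/
private def FF {A : Type} (m m' : ℕ) (F F' : ℕ → List A → (ℕ → ℕ) → ℕ) (j : ℕ) (x : List A)
    (E : ℕ → ℕ) : ℕ :=
  mm m m' (gg m F x (dd 2 m E)) (gg m' F' x (dd (2 + m) m' E)) j

section UF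

variable {A : Type}

private theorem uf_dd (p m j : ℕ) : UF (fun (_ : List A) E => dd p m E j) := by
  unfold dd decF
  exact UF.ite (UP.const (j = 0)) (UF.ite (UP.eq (UF.var p) (UF.const 0)) (UF.const 1)
    ((UF.var p).sub (UF.const 1))) (UF.ite (UP.const (j < m)) (UF.var (p + j)) (UF.const 0))

private theorem uf_gg {m : ℕ} {F : ℕ → List A → (ℕ → ℕ) → ℕ} (hF : ∀ j, UF (F j)) (p j : ℕ) :
    UF (fun x E => gg m F x (dd p m E) j) := by
  unfold gg vstep
  exact UF.ite (UP.ne (uf_dd p m 0) (UF.const 0)) (UF.ite (UP.const (j < m))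
    ((hF j).subst (fun i _ E => dd p m E i) fun i => uf_dd p m i) (UF.const 0)) (uf_dd p m j)

private theorem uf_cc {m : ℕ} {F : ℕ → List A → (ℕ → ℕ) → ℕ} (hF : ∀ j, UF (F j)) (p j : ℕ) :
    UF (fun x E => cc (gg m F x (dd p m E)) j) := by
  unfold cc encF
  exact UF.ite (UP.const (j = 0)) (UF.ite (UP.eq (uf_gg hF p 0) (UF.const 1)) (UF.const 0)
    ((uf_gg hF p 0).add (UF.const 1))) (uf_gg hF p j)

private theorem uf_FF {m m' : ℕ} {F F' : ℕ → List A → (ℕ → ℕ) → ℕ} (hF : ∀ j, UF (F j))
    (hF' : ∀ j, UF (F' j)) (j : ℕ) : UF (FF m m' F F' j) := by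
  have h : UF (fun x E => mm m m' (gg m F x (dd 2 m E)) (gg m' F' x (dd (2 + m) m' E)) j) := by
    unfold mm
    refine UF.ite (UP.const (j = 0)) ?_ (UF.ite (UP.const (j = 1)) ?_
      (UF.ite (UP.const (j < 2 + m)) (uf_cc hF 2 (j - 2))
      (UF.ite (UP.const (j < 2 + m + m')) (uf_cc hF' (2 + m) (j - 2 - m)) (UF.const 0))))
    · exact UF.ite ((UP.ne (uf_gg hF 2 0) (UF.const 0)).or
        (UP.ne (uf_gg hF' (2 + m) 0) (UF.const 0))) (UF.const 1) (UF.const 0)
    · exact UF.ite ((UP.ne (uf_gg hF 2 1) (UF.const 0)).and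
        (UP.ne (uf_gg hF' (2 + m) 1) (UF.const 0))) (UF.const 1) (UF.const 0)
  exact h

end UF

private theorem dd_mm_left {m m' : ℕ} (hm : 2 ≤ m) {e e' : ℕ → ℕ} (he : ∀ j, m ≤ j → e j = 0) :
    dd 2 m (mm m m' e e') = e := by
  funext j
  unfold dd mm
  by_cases h0 : j = 0
  · subst h0
    rw [if_pos rfl, if_neg (by omega), if_neg (by omega), if_pos (by omega)]
    unfold cc
    rw [if_pos (by omega), decF_encF]
  · rw [if_neg h0]
    by_cases h1 : j < m
    · rw [if_pos h1, if_neg (by omega), if_neg (by omega), if_pos (by omega)]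
      unfold cc
      rw [if_neg (by omega)]
      congr 1
      omega
    · rw [if_neg h1, he j (by omega)]

private theorem dd_mm_right {m m' : ℕ} (hm' : 2 ≤ m') {e e' : ℕ → ℕ}
    (he' : ∀ j, m' ≤ j → e' j = 0) : dd (2 + m) m' (mm m m' e e') = e' := by
  funext j
  unfold dd mm
  by_cases h0 : j = 0
  · subst h0
    rw [if_pos rfl, if_neg (by omega), if_neg (by omega), if_neg (by omega), if_pos (by omega)]
    unfold cc
    rw [if_pos (by omega), decF_encF]
  · rw [if_neg h0]
    by_cases h1 : j < m'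
    · rw [if_pos h1, if_neg (by omega), if_neg (by omega), if_neg (by omega), if_pos (by omega)]
      unfold cc
      rw [if_neg (by omega)]
      congr 1
      omega
    · rw [if_neg h1, he' j (by omega)]

section Iter

variable {A : Type} {m m' : ℕ} {F F' : ℕ → List A → (ℕ → ℕ) → ℕ} {x : List A}

private theorem gg_zero (hm : 2 ≤ m) (i j : ℕ) (hj : m ≤ j) : (gg m F x)^[i] e₀ j = 0 := by
  induction i with
  | zero =>
    simp only [Function.iterate_zero, id_eq, e₀]
    rw [if_neg (by omega)]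
  | succ i ih =>
    rw [Function.iterate_succ_apply']
    unfold gg vstep
    split_ifs
    · omega
    · rfl
    · exact ih

private theorem mm_e₀ : mm m m' e₀ e₀ = e₀ := by
  funext j
  unfold mm cc encF e₀
  split_ifs <;> first | rfl | omega

private theorem iterate_mm (hm : 2 ≤ m) (hm' : 2 ≤ m') (i : ℕ) :
    (vstep (2 + m + m') (FF m m' F F') x)^[i] e₀ =
      mm m m' ((gg m F x)^[i] e₀) ((gg m' F' x)^[i] e₀) := by
  induction i with
  | zero =>
    simp only [Function.iterate_zero, id_eq]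
    exact mm_e₀.symm
  | succ i ih =>
    rw [Function.iterate_succ_apply', ih, Function.iterate_succ_apply',
      Function.iterate_succ_apply']
    have h1 := gg_zero (F := F) (x := x) hm i
    have h2 := gg_zero (F := F') (x := x) hm' i
    funext j
    unfold vstep
    split_ifs with h3
    · unfold FF
      rw [dd_mm_left hm h1, dd_mm_right hm' h2]
    · unfold mm
      rw [if_neg (by omega), if_neg (by omega), if_neg (by omega), if_neg h3]

private theorem iterate_gg_le {s : ℕ} (h : ∀ i < s, (vstep m F x)^[i] e₀ 0 ≠ 0) :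
    ∀ i ≤ s, (gg m F x)^[i] e₀ = (vstep m F x)^[i] e₀ := by
  intro i
  induction i with
  | zero => intro _; rfl
  | succ i ih =>
    intro hi
    rw [Function.iterate_succ_apply', ih (by omega), Function.iterate_succ_apply']
    funext j
    unfold gg
    rw [if_pos (h i (by omega))]

private theorem iterate_gg_ge {s : ℕ} (h : ∀ i < s, (vstep m F x)^[i] e₀ 0 ≠ 0)
    (h0 : (vstep m F x)^[s] e₀ 0 = 0) (i : ℕ) :
    (gg m F x)^[s + i] e₀ = (vstep m F x)^[s] e₀ := by
  induction i with
  | zero => exact iterate_gg_le h s le_rfl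
  | succ i ih =>
    rw [← Nat.add_assoc, Function.iterate_succ_apply', ih]
    funext j
    unfold gg
    rw [if_neg (by rw [h0]; simp)]

private theorem iterate_gg_bd {s B : ℕ} (h : ∀ i < s, (vstep m F x)^[i] e₀ 0 ≠ 0)
    (h0 : (vstep m F x)^[s] e₀ 0 = 0) (hB : ∀ i ≤ s, ∀ j, (vstep m F x)^[i] e₀ j ≤ B) (i j : ℕ) :
    (gg m F x)^[i] e₀ j ≤ B := by
  rcases Nat.le_total i s with h1 | h1
  · rw [iterate_gg_le h i h1]
    exact hB i h1 j
  · obtain ⟨r, rfl⟩ := Nat.exists_eq_add_of_le h1
    rw [iterate_gg_ge h h0]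
    exact hB s le_rfl j

end Iter

private theorem cc_le {e : ℕ → ℕ} {B : ℕ} (h : ∀ j, e j ≤ B) (j : ℕ) : cc e j ≤ B + 1 := by
  unfold cc encF
  have h0 := h 0
  have hj := h j
  split_ifs <;> omega

/-- The two loops given by `exists_while` are run in parallel. -/
theorem inPL_and {A : Type} [Fintype A] {S T : Set (List A)} (hS : InPL A S) (hT : InPL A T) :
    InPL A {x | x ∈ S ∧ x ∈ T} := by
  obtain ⟨m, F, bd, hm, hF, hbd, h⟩ := exists_while hS
  obtain ⟨m', F', bd', hm', hF', hbd', h'⟩ := exists_while hT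
  refine inPL_of_while (2 + m + m') (by omega) (FF m m' F F') (uf_FF hF hF') _
    (fun n => bd n + bd' n + 1) ((hbd.add hbd').add (QB.const 1)) fun x => ?_
  obtain ⟨s, hs, h1, h2, h3, h4⟩ := h x
  obtain ⟨s', hs', h1', h2', h3', h4'⟩ := h' x
  have hend : (gg m F x)^[max s s'] e₀ = (vstep m F x)^[s] e₀ := by
    obtain ⟨r, hr⟩ := Nat.exists_eq_add_of_le (le_max_left s s')
    rw [hr]
    exact iterate_gg_ge h1 h2 r
  have hend' : (gg m' F' x)^[max s s'] e₀ = (vstep m' F' x)^[s'] e₀ := by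
    obtain ⟨r, hr⟩ := Nat.exists_eq_add_of_le (le_max_right s s')
    rw [hr]
    exact iterate_gg_ge h1' h2' r
  refine ⟨max s s', ?_, fun i hi => ?_, ?_, fun i hi j => ?_, ?_⟩
  · show max s s' ≤ bd x.length + bd' x.length + 1
    omega
  · rw [iterate_mm hm hm']
    unfold mm
    rw [if_pos rfl]
    rcases lt_max_iff.1 hi with h5 | h5
    · rw [if_pos (Or.inl (by rw [iterate_gg_le h1 i h5.le]; exact h1 i h5))]
      exact one_ne_zero
    · rw [if_pos (Or.inr (by rw [iterate_gg_le h1' i h5.le]; exact h1' i h5))]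
      exact one_ne_zero
  · rw [iterate_mm hm hm']
    unfold mm
    rw [if_pos rfl, hend, hend', h2, h2']
    simp
  · rw [iterate_mm hm hm']
    have e1 := iterate_gg_bd h1 h2 h3 i
    have e2 := iterate_gg_bd h1' h2' h3' i
    have e3 := cc_le e1 (j - 2)
    have e4 := cc_le e2 (j - 2 - m)
    show _ ≤ bd x.length + bd' x.length + 1
    unfold mm
    split_ifs <;> omega
  · rw [iterate_mm hm hm']
    unfold mm
    rw [if_neg one_ne_zero, if_pos rfl, hend, hend', Set.mem_ofPred_eq, h4, h4']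
    simp

end Pool.Agent.BookAvB
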