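import Pool.Agent.BookAvB.QuantU

/-!
# Being a bad truth table is decidable in polylogarithmic space
-/

set_option autoImplicit false

namespace Pool.Agent.BookAvB

open Pool.Agent.PT Pool.Agent.Book19 Pool.Agent.BookPL Pool.Agent.BookAv
open Function (update)

/-- If `z` is long then `sz k n` and `tm k n` are given by `pw`. -/
theorem long_pw {t k : ℕ} {W : ℕ → List Bool} (ht : 1 ≤ t)
    (h : (Nat.log 2 (W 0).length + 2) ^ (k + 4) ≤ Nat.log 2 (W 1).length) :
    pw (mkW t W) (Nat.log 2 (W 0).length ^ k) = sz k (W 0).length ∧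
      pw (mkW t W) (Nat.log 2 (W 0).length ^ (k + 2)) = tm k (W 0).length := by
  set l := Nat.log 2 (W 0).length with hl
  have hlen : (W 1).length ≤ (mkW t W).length := by
    rw [length_mkW]
    exact Finset.single_le_sum (f := fun i => (W i).length) (fun _ _ => Nat.zero_le _)
      (Finset.mem_range.2 (by omega))
  have h1 : (W 1).length ≠ 0 := by
    intro h0
    rw [h0, Nat.log_zero_right] at h
    have : 0 < (l + 2) ^ (k + 4) := by positivity
    omega
  have h2 : ∀ e, e ≤ (l + 2) ^ (k + 4) → 2 ^ e ≤ (mkW t W).length := fun e he =>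
    (Nat.pow_le_pow_right (by norm_num) (he.trans h)).trans ((Nat.pow_log_le_self 2 h1).trans hlen)
  have h3 : ∀ j, j ≤ k + 4 → l ^ j ≤ (l + 2) ^ (k + 4) := fun j hj =>
    (Nat.pow_le_pow_left (by omega) j).trans (Nat.pow_le_pow_right (by omega) hj)
  exact ⟨pw_eq (h2 _ (h3 _ (by omega))), pw_eq (h2 _ (h3 _ (by omega)))⟩

section terms

variable {t : ℕ} (k : ℕ)

/-- The term for `sz k n`. -/
noncomputable def Fs (Y : List (TB t)) : ℕ := pw Y (Nat.log 2 (sc 0 Y) ^ k)

/-- The term for `tm k n`. -/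
noncomputable def Fm (Y : List (TB t)) : ℕ := pw Y (Nat.log 2 (sc 0 Y) ^ (k + 2))

theorem uf_Fs : UF (fun (Y : List (TB t)) _ => Fs k Y) := uf_pw ((UF.log2 (uf_sc 0)).pow k)

theorem uf_Fm : UF (fun (Y : List (TB t)) _ => Fm k Y) := uf_pw ((UF.log2 (uf_sc 0)).pow (k + 2))

theorem Fs_eq {W : ℕ → List Bool} (ht : 1 ≤ t)
    (h : (Nat.log 2 (W 0).length + 2) ^ (k + 4) ≤ Nat.log 2 (W 1).length) :
    Fs k (mkW t W) = sz k (W 0).length := by
  unfold Fs
  rw [sc_mkW (Nat.zero_le t)]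
  exact (long_pw ht h).1

theorem Fm_eq {W : ℕ → List Bool} (ht : 1 ≤ t)
    (h : (Nat.log 2 (W 0).length + 2) ^ (k + 4) ≤ Nat.log 2 (W 1).length) :
    Fm k (mkW t W) = tm k (W 0).length := by
  unfold Fm
  rw [sc_mkW (Nat.zero_le t)]
  exact (long_pw ht h).2

end terms

private theorem bt_map_range {n p : ℕ} (f : ℕ → Bool) (hp : p < n) :
    bt ((List.range n).map f) p ↔ f p = true := by
  unfold bt
  rw [List.getElem?_map, List.getElem?_range hp]
  simp

private theorem bt_iff_getD (w : List Bool) (p : ℕ) : w.getD p false = true ↔ bt w p := by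
  unfold bt
  rw [List.getD_eq_getElem?_getD]
  cases h : w[p]? with
  | none => simp
  | some b => simp

theorem bt_mixL {ℓ v p : ℕ} {y : List Bool} (hp : p < y.length) :
    bt (mixL ℓ v y) p ↔ (p < ℓ ∧ v.testBit p = true) ∨ (ℓ ≤ p ∧ bt y p) := by
  unfold mixL
  rw [bt_map_range _ hp]
  by_cases h : p < ℓ
  · simp [h]
  · rw [if_neg h, bt_iff_getD]
    simp [h, not_lt.1 h]

theorem length_mixL (ℓ v : ℕ) (y : List Bool) : (mixL ℓ v y).length = y.length := by
  simp [mixL]

private theorem cnt_congr' (m : ℕ) {P Q : ℕ → Prop} (h : ∀ v < m, (P v ↔ Q v)) :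
    cnt m P = cnt m Q := by
  unfold cnt
  refine Finset.sum_congr rfl fun v hv => ?_
  have h1 := h v (Finset.mem_range.1 hv)
  by_cases hQ : Q v
  · rw [if_pos (h1.2 hQ), if_pos hQ]
  · rw [if_neg (fun hP => hQ (h1.1 hP)), if_neg hQ]

/-- The statement on the answer number `|W 6|`. -/
private theorem ans_plp {E : Set (List (Bool ⊕ Bool))} (hE : InPL _ E) (k : ℕ) :
    PLP 6 (fun W => (bt (W 5) (W 6).length ↔
      pr (mixL (Nat.log 2 (W 0).length ^ (k + 2)) (W 6).length (W 4)) (W 3) ∈ E)) := by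
  refine PLP.iff ?_ ?_
  · exact PLP.ofUP (P' := fun Y => bit 5 Y (sc 6 Y)) (up_bit 5 (uf_sc 6)) fun W => by
      rw [sc_mkW (by norm_num), bit_mkW (by norm_num)]
  · have hl : UF (fun (Y : List (TB 6)) _ => Nat.log 2 (sc 0 Y) ^ (k + 2)) :=
      (UF.log2 (uf_sc 0)).pow (k + 2)
    refine (PLP.sub (r := 6) (PLP.ofPair hE)
      (fun i W => if i = 0 then mixL (Nat.log 2 (W 0).length ^ (k + 2)) (W 6).length (W 4)
        else W 3)
      (fun i Y => if i = 0 then sc 4 Y else sc 3 Y)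
      (fun i Y p => if i = 0 then (p < Nat.log 2 (sc 0 Y) ^ (k + 2) ∧ (sc 6 Y).testBit p = true) ∨
        (Nat.log 2 (sc 0 Y) ^ (k + 2) ≤ p ∧ bit 4 Y p) else bit 3 Y p)
      (fun i hi => ?_) (fun i hi => ?_) (fun W i hi => ?_)).congr fun W => ?_
    · by_cases h : i = 0
      · simpa only [h, if_true] using uf_sc 4
      · simpa only [h, if_false] using uf_sc 3
    · by_cases h : i = 0
      · simp only [h, if_true]
        exact ((UP.lt (UF.var 0) hl).and (UP.testBit (uf_sc 6) (UF.var 0))).or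
          ((UP.le hl (UF.var 0)).and (up_bit 4 (UF.var 0)))
      · simp only [h, if_false]
        exact up_bit 3 (UF.var 0)
    · by_cases h : i = 0
      · simp only [h, if_true]
        rw [sc_mkW (by norm_num), sc_mkW (by norm_num), sc_mkW (by norm_num), length_mixL]
        refine ⟨rfl, fun p hp => ?_⟩
        rw [bt_mixL hp, bit_mkW (by norm_num)]
      · simp only [h, if_false]
        rw [sc_mkW (by norm_num)]
        exact ⟨rfl, fun p _ => (bit_mkW (by norm_num) W p).symm⟩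
    · simp

/-- The kernel. -/
private theorem ker_plp (H : ∀ (A : Type) [Fintype A] (L : Set (List A)), InNPc A L → InPL A L)
    {E : Set (List (Bool ⊕ Bool))} (hE : InPL _ E) (k : ℕ) :
    PLP 5 (fun W => ((Nat.log 2 (W 0).length + 2) ^ (k + 4) ≤ Nat.log 2 (W 1).length ∧
      (W 3).length ≤ sz k (W 0).length ∧ (W 4).length = (W 0).length ∧
      (W 5).length = tm k (W 0).length ∧
      tm k (W 0).length * (sz k (W 0).length + 2) < 2 * sz k (W 0).length *
        cnt (tm k (W 0).length) (fun v => (bt (W 2) v ↔ bt (W 5) v))) ∧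
      ∀ v < tm k (W 0).length, (bt (W 5) v ↔
        pr (mixL (Nat.log 2 (W 0).length ^ (k + 2)) v (W 4)) (W 3) ∈ E)) := by
  have hlog : UF (fun (Y : List (TB 5)) (_ : ℕ → ℕ) => Nat.log 2 (sc 0 Y)) := UF.log2 (uf_sc 0)
  have h1 : PLP 5 (fun W => (Nat.log 2 (W 0).length + 2) ^ (k + 4) ≤ Nat.log 2 (W 1).length ∧
      (W 3).length ≤ sz k (W 0).length ∧ (W 4).length = (W 0).length ∧
      (W 5).length = tm k (W 0).length ∧
      tm k (W 0).length * (sz k (W 0).length + 2) < 2 * sz k (W 0).length *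
        cnt (tm k (W 0).length) (fun v => (bt (W 2) v ↔ bt (W 5) v))) := by
    refine PLP.ofUP (P' := fun Y => (Nat.log 2 (sc 0 Y) + 2) ^ (k + 4) ≤ Nat.log 2 (sc 1 Y) ∧
      sc 3 Y ≤ Fs k Y ∧ sc 4 Y = sc 0 Y ∧ sc 5 Y = Fm k Y ∧
      Fm k Y * (Fs k Y + 2) < 2 * Fs k Y * cnt (Fm k Y) (fun v => (bit 2 Y v ↔ bit 5 Y v)))
      ?_ fun W => ?_
    · refine (UP.le ((hlog.add (UF.const 2)).pow (k + 4)) (UF.log2 (uf_sc 1))).and
        ((UP.le (uf_sc 3) (uf_Fs k)).and ((UP.eq (uf_sc 4) (uf_sc 0)).and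
        ((UP.eq (uf_sc 5) (uf_Fm k)).and
        (UP.lt ((uf_Fm k).mul ((uf_Fs k).add (UF.const 2)))
          (((UF.const 2).mul (uf_Fs k)).mul (uf_cnt (P := fun Y _ v => (bit 2 Y v ↔ bit 5 Y v))
            (uf_Fm k) ((up_bit 2 (UF.var 0)).iff (up_bit 5 (UF.var 0)))))))))
    · rw [sc_mkW (by norm_num), sc_mkW (by norm_num), sc_mkW (by norm_num), sc_mkW (by norm_num),
        sc_mkW (by norm_num)]
      refine and_congr_right fun h => ?_
      rw [Fs_eq k (by norm_num) h, Fm_eq k (by norm_num) h]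
      simp only [bit_mkW (show 2 ≤ 5 by norm_num), bit_mkW (show 5 ≤ 5 by norm_num)]
  have h2 := PLP.ballU H (ans_plp hE k) (uf_Fm (t := 5) k)
  refine (h1.and h2).congr fun W => ?_
  refine and_congr_right fun h => ?_
  rw [Fm_eq k (by norm_num) h.1]
  simp

/-- Blocks: `0` is `x`, `1` is `z`, `2` is the truth table. Three times `exU`, for `a`, `y` and for the
word `b` of the answers, and `ballU` for the statement
`∀ v < m, (bt b v ↔ pr (mixL ℓ v y) a ∈ E)`, which comes from `PLP.ofPair` and `PLP.sub`. -/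
theorem bad_plp (H : ∀ (A : Type) [Fintype A] (L : Set (List A)), InNPc A L → InPL A L)
    {E : Set (List (Bool ⊕ Bool))} (hE : InPL _ E) (k : ℕ) :
    PLP 2 (fun W => (Nat.log 2 (W 0).length + 2) ^ (k + 4) ≤ Nat.log 2 (W 1).length ∧
      BadE E k (W 0).length (W 2)) := by
  classical
  have h3 := PLP.exU H (PLP.exU H (PLP.exU H (ker_plp H hE k) (uf_Fm (t := 4) k))
    (uf_sc (t := 3) 0)) (uf_Fs (t := 2) k)
  refine h3.congr fun W => ?_
  have e0 : ∀ a y b : List Bool, update (update (update W 3 a) 4 y) 5 b 0 = W 0 := fun a y b => by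
    simp
  have e1 : ∀ a y b : List Bool, update (update (update W 3 a) 4 y) 5 b 1 = W 1 := fun a y b => by
    simp
  have e2 : ∀ a y b : List Bool, update (update (update W 3 a) 4 y) 5 b 2 = W 2 := fun a y b => by
    simp
  have e3 : ∀ a y b : List Bool, update (update (update W 3 a) 4 y) 5 b 3 = a := fun a y b => by
    simp
  have e4 : ∀ a y b : List Bool, update (update (update W 3 a) 4 y) 5 b 4 = y := fun a y b => by
    simp
  have e5 : ∀ a y b : List Bool, update (update (update W 3 a) 4 y) 5 b 5 = b := fun a y b => by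
    simp
  simp only [e0, e1, e2, e3, e4, e5]
  have s0 : ∀ a : List Bool, sc 0 (mkW 3 (update W 3 a)) = (W 0).length := fun a => by
    rw [sc_mkW (by norm_num)]
    simp
  constructor
  · rintro ⟨a, _, y, _, b, _, ⟨h, h3, h4, h5, h6⟩, h7⟩
    exact ⟨h, a, y, h3, h4, lt_of_lt_of_le h6 (Nat.mul_le_mul_left _ (le_of_eq
      (cnt_congr' _ fun v hv => iff_congr Iff.rfl (h7 v hv))))⟩
  · rintro ⟨h, a, y, h3, h4, h6⟩
    set b : List Bool := (List.range (tm k (W 0).length)).map fun v =>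
      decide (pr (mixL (ell k (W 0).length) v y) a ∈ E) with hb
    have h7 : ∀ v < tm k (W 0).length, (bt b v ↔
        pr (mixL (ell k (W 0).length) v y) a ∈ E) := fun v hv => by
      rw [hb, bt_map_range _ hv, decide_eq_true_iff]
    have hbl : b.length = tm k (W 0).length := by simp [hb]
    have hF : Fm k (mkW 4 (update (update W 3 a) 4 y)) = tm k (W 0).length := by
      rw [Fm_eq k (by norm_num)]
      · simp
      · simpa using h
    refine ⟨a, ?_, y, ?_, b, ?_, ⟨h, h3, h4, hbl, lt_of_lt_of_le h6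
      (Nat.mul_le_mul_left _ (le_of_eq
        (cnt_congr' _ fun v hv => iff_congr Iff.rfl (h7 v hv).symm)))⟩, h7⟩
    · rw [Fs_eq k (by norm_num) h]
      exact h3
    · rw [s0, h4]
    · rw [hF, hbl]

end Pool.Agent.BookAvB
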