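import Pool.Agent.BookAvB.Defs

/-!
# Several words in one word
-/

set_option autoImplicit false

namespace Pool.Agent.BookAvB

open Pool.Agent.PT Pool.Agent.Book19 Pool.Agent.BookPL Pool.Agent.BookAv
open Function (update)

variable {t : ℕ}

private theorem mkW_zero (W : ℕ → List Bool) :
    mkW 0 W = (W 0).map (fun b => ((0 : Fin 1), b)) := by
  unfold mkW
  simp [List.finRange_succ]

private theorem mkW_succ (t : ℕ) (W : ℕ → List Bool) :
    mkW (t + 1) W = (mkW t W).map (fun a => (a.1.castSucc, a.2)) ++
      (W (t + 1)).map (fun b => (Fin.last (t + 1), b)) := by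
  unfold mkW
  rw [List.finRange_succ_last, List.flatMap_append, List.flatMap_map, List.map_flatMap]
  congr 1
  · refine congrArg (fun g => List.flatMap g (List.finRange (t + 1))) ?_
    funext i
    rw [List.map_map]
    rfl
  · simp

theorem length_mkW (W : ℕ → List Bool) :
    (mkW t W).length = ∑ i ∈ Finset.range (t + 1), (W i).length := by
  induction t with
  | zero => simp [mkW_zero]
  | succ t ih =>
    rw [mkW_succ, List.length_append, List.length_map, List.length_map, ih,
      Finset.sum_range_succ _ (t + 1)]

theorem mkW_congr {W W' : ℕ → List Bool} (h : ∀ i ≤ t, W i = W' i) : mkW t W = mkW t W' := by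
  unfold mkW
  refine congrArg (fun g => List.flatMap g (List.finRange (t + 1))) ?_
  funext i
  rw [h i (Nat.lt_succ_iff.1 i.2)]

theorem mkW_update (W : ℕ → List Bool) (w : List Bool) :
    mkW (t + 1) (update W (t + 1) w) = (mkW t W).map (fun a => (a.1.castSucc, a.2)) ++
      w.map (fun b => (Fin.last (t + 1), b)) := by
  rw [mkW_succ, Function.update_self, mkW_congr (t := t) (W := update W (t + 1) w) (W' := W)]
  intro i hi
  rw [Function.update_of_ne]
  omega

theorem sc_mkW {i : ℕ} (hi : i ≤ t) (W : ℕ → List Bool) : sc i (mkW t W) = (W i).length := by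
  induction t with
  | zero =>
    obtain rfl : i = 0 := by omega
    unfold sc
    rw [mkW_zero, List.countP_map, List.countP_eq_length.2]
    intro b _
    simp
  | succ t ih =>
    unfold sc at ih ⊢
    rw [mkW_succ, List.countP_append, List.countP_map, List.countP_map]
    rcases Nat.lt_or_ge i (t + 1) with h | h
    · have h1 : List.countP ((fun a : TB (t + 1) => decide ((a.1 : ℕ) = i)) ∘
          fun b => (Fin.last (t + 1), b)) (W (t + 1)) = 0 := by
        rw [List.countP_eq_zero]
        intro b _
        simp only [Function.comp_apply, Fin.val_last, decide_eq_true_eq]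
        omega
      rw [h1, add_zero, ← ih (by omega)]
      rfl
    · obtain rfl : i = t + 1 := by omega
      have h1 : List.countP ((fun a : TB (t + 1) => decide ((a.1 : ℕ) = t + 1)) ∘
          fun a : TB t => (a.1.castSucc, a.2)) (mkW t W) = 0 := by
        rw [List.countP_eq_zero]
        intro a _
        simp only [Function.comp_apply, Fin.val_castSucc, decide_eq_true_eq]
        have := a.1.2
        omega
      rw [h1, zero_add, List.countP_eq_length.2]
      intro b _
      simp

/-- The letters of `mkW t W`. -/
theorem getElem?_mkW (W : ℕ → List Bool) (p : ℕ) (i : Fin (t + 1)) (b : Bool) :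
    (mkW t W)[p]? = some (i, b) ↔ ∑ j ∈ Finset.range i, (W j).length ≤ p ∧
      (W i)[p - ∑ j ∈ Finset.range i, (W j).length]? = some b := by
  induction t with
  | zero =>
    obtain rfl : i = 0 := Fin.fin_one_eq_zero i
    rw [mkW_zero, List.getElem?_map]
    simp
  | succ t ih =>
    have hlen : ((mkW t W).map (fun a : TB t => ((a.1.castSucc, a.2) : TB (t + 1)))).length =
        ∑ j ∈ Finset.range (t + 1), (W j).length := by
      rw [List.length_map, length_mkW]
    rw [mkW_succ, List.getElem?_append, hlen]
    refine Fin.lastCases ?_ (fun i' => ?_) i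
    · rw [Fin.val_last]
      split_ifs with h
      · constructor
        · intro h1
          rw [List.getElem?_map, Option.map_eq_some_iff] at h1
          obtain ⟨a, -, ha⟩ := h1
          have h2 := congrArg (fun c : TB (t + 1) => (c.1 : ℕ)) ha
          simp only [Fin.val_castSucc, Fin.val_last] at h2
          have := a.1.2
          omega
        · rintro ⟨h1, -⟩
          omega
      · rw [List.getElem?_map, Option.map_eq_some_iff]
        constructor
        · rintro ⟨c, hc, hc'⟩
          have h2 : c = b := congrArg (fun c : TB (t + 1) => c.2) hc'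
          rw [← h2]
          exact ⟨by omega, hc⟩
        · rintro ⟨-, h1⟩
          exact ⟨b, h1, rfl⟩
    · rw [Fin.val_castSucc, ← ih i']
      split_ifs with h
      · rw [List.getElem?_map, Option.map_eq_some_iff]
        constructor
        · rintro ⟨a, ha, ha'⟩
          rw [ha]
          have h2 := congrArg (fun c : TB (t + 1) => c.1) ha'
          have h3 : a.2 = b := congrArg (fun c : TB (t + 1) => c.2) ha'
          have h4 : a.1 = i' := Fin.castSucc_injective _ h2
          rw [← h3, ← h4]
        · intro h1
          exact ⟨(i', b), h1, rfl⟩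
      · constructor
        · intro h1
          rw [List.getElem?_map, Option.map_eq_some_iff] at h1
          obtain ⟨c, -, hc⟩ := h1
          have h2 := congrArg (fun c : TB (t + 1) => (c.1 : ℕ)) hc
          simp only [Fin.val_castSucc, Fin.val_last] at h2
          have := i'.2
          omega
        · intro h1
          rw [List.getElem?_eq_none] at h1
          · cases h1
          · rw [length_mkW]
            omega

theorem bit_mkW {i : ℕ} (hi : i ≤ t) (W : ℕ → List Bool) (p : ℕ) :
    bit i (mkW t W) p ↔ bt (W i) p := by
  have hS : ∑ j ∈ Finset.range i, sc j (mkW t W) = ∑ j ∈ Finset.range i, (W j).length := by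
    refine Finset.sum_congr rfl fun j hj => sc_mkW ?_ W
    have := Finset.mem_range.1 hj
    omega
  have key : ∀ b, (mkW t W)[∑ j ∈ Finset.range i, (W j).length + p]? =
      some ((⟨i, Nat.lt_succ_of_le hi⟩ : Fin (t + 1)), b) ↔ (W i)[p]? = some b := by
    intro b
    rw [getElem?_mkW]
    simp
  unfold bit bt
  rw [hS, sc_mkW hi]
  constructor
  · rintro ⟨h1, a, ha, ha2⟩
    have h2 := (key (W i)[p]).2 (List.getElem?_eq_getElem h1)
    rw [ha] at h2
    have h3 : a = ((⟨i, Nat.lt_succ_of_le hi⟩ : Fin (t + 1)), (W i)[p]) := by simpa using h2
    rw [h3] at ha2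
    rw [List.getElem?_eq_getElem h1]
    exact congrArg some ha2
  · intro h
    have h1 : p < (W i).length := by
      by_contra hcon
      rw [List.getElem?_eq_none (by omega)] at h
      cases h
    exact ⟨h1, _, (key true).2 h, rfl⟩

end Pool.Agent.BookAvB
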