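import Pool.Agent.BookAvB.Defs

/-!
# Terms for several words in one word, and substitution of words given by terms
-/

set_option autoImplicit false

namespace Pool.Agent.BookAvB

open Pool.Agent.PT Pool.Agent.Book19 Pool.Agent.BookPL Pool.Agent.BookAv

variable {t : ℕ}

theorem uf_cnt {Γ : Type} {m : List Γ → (ℕ → ℕ) → ℕ} {P : List Γ → (ℕ → ℕ) → ℕ → Prop}
    (hm : UF m) (hP : UP (fun Y e => P Y (fun i => e (i + 1)) (e 0))) :
    UF (fun Y e => cnt (m Y e) (P Y e)) := by
  unfold cnt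
  exact UF.sum (f := fun x e v => @ite ℕ (P x e v) (Classical.propDecidable _) 1 0) hm hP

theorem uf_sc (i : ℕ) : UF (fun (Y : List (TB t)) _ => sc i Y) :=
  UF.countP (fun a : TB t => decide ((a.1 : ℕ) = i))

theorem up_bit (i : ℕ) {f : List (TB t) → (ℕ → ℕ) → ℕ} (hf : UF f) :
    UP (fun Y e => bit i Y (f Y e)) := by
  have h0 : UP (fun (Y : List (TB t)) e => bit i Y (e 0)) := by
    unfold bit
    refine (UP.lt (UF.var 0) (uf_sc i)).and ?_
    have h : UF (fun (Y : List (TB t)) (e : ℕ → ℕ) => ∑ j ∈ Finset.range i, sc j Y + e 0) :=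
      (UF.fsum (Finset.range i) (F := fun j Y _ => sc j Y) (fun j _ => uf_sc j)).add (UF.var 0)
    exact (UP.at' (fun a : TB t => a.2 = true) h).congr fun _ _ => Iff.rfl
  exact UP.comp₁ (P := fun Y v => bit i Y v) h0 hf

theorem uf_pw {f : List (TB t) → (ℕ → ℕ) → ℕ} (hf : UF f) : UF (fun Y e => pw Y (f Y e)) := by
  unfold pw
  exact uf_cnt (P := fun Y e i => i = 0 ∨ Nat.log 2 i < f Y e) UF.len
    ((UP.eq (UF.var 0) (UF.const 0)).or (UP.lt (UF.log2 (UF.var 0)) (UF.ren (fun i => i + 1) hf)))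

theorem pw_eq {Y : List (TB t)} {e : ℕ} (h : 2 ^ e ≤ Y.length) : pw Y e = 2 ^ e := by
  unfold pw cnt
  have h0 : ∀ v ∈ Finset.range Y.length, (@ite ℕ ((fun i => i = 0 ∨ Nat.log 2 i < e) v)
      (Classical.propDecidable _) 1 0) = if v < 2 ^ e then 1 else 0 := by
    intro v _
    have h2 : (v = 0 ∨ Nat.log 2 v < e) ↔ v < 2 ^ e := by
      rcases Nat.eq_zero_or_pos v with rfl | hv
      · simp
      · rw [Nat.log_lt_iff_lt_pow (by norm_num) hv.ne']
        constructor
        · rintro (h2 | h2)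
          · omega
          · exact h2
        · exact Or.inr
    by_cases h3 : v < 2 ^ e
    · rw [if_pos h3, if_pos (h2.2 h3)]
    · rw [if_neg h3, if_neg (fun h4 => h3 (h2.1 h4))]
  rw [Finset.sum_congr rfl h0, Finset.sum_boole]
  have h1 : (Finset.range Y.length).filter (fun i => i < 2 ^ e) = Finset.range (2 ^ e) := by
    ext i
    simp only [Finset.mem_filter, Finset.mem_range]
    exact ⟨fun h2 => h2.2, fun h2 => ⟨lt_of_lt_of_le h2 h, h2⟩⟩
  rw [h1, Finset.card_range]
  rfl

private theorem uf_word_tm {A B : Type} (Z : List B → List A)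
    (hl : UF (fun u _ => (Z u).length)) (hZ : ∀ a, UP (fun u e => (Z u)[e 0]? = some a)) :
    ∀ s : Tm A, UF (fun u e => s.eval (Z u) e)
  | .var i => UF.var i
  | .const c => UF.const c
  | .len => hl
  | .sym a s => by
    have h := UP.comp₁ (P := fun u v => (Z u)[v]? = some a) (hZ a) (uf_word_tm Z hl hZ s)
    refine UF.congr h fun u e => ?_
    simp only [Tm.eval]
    split_ifs <;> rfl
  | .add s s' => (uf_word_tm Z hl hZ s).add (uf_word_tm Z hl hZ s')
  | .sub s s' => (uf_word_tm Z hl hZ s).sub (uf_word_tm Z hl hZ s')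
  | .sum b s => UF.sum' (uf_word_tm Z hl hZ b) (uf_word_tm Z hl hZ s)
  | .lett s s' => UF.lett (uf_word_tm Z hl hZ s) (uf_word_tm Z hl hZ s')
  | .ren σ s => UF.ren σ (uf_word_tm Z hl hZ s)

/-- Substitution of a word given by terms, by induction on the term for `f`. -/
theorem uf_word {A B : Type} {f : List A → (ℕ → ℕ) → ℕ} (hf : UF f) (Z : List B → List A)
    (hl : UF (fun u _ => (Z u).length)) (hZ : ∀ a, UP (fun u e => (Z u)[e 0]? = some a)) :
    UF (fun u e => f (Z u) e) := by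
  obtain ⟨s, hs⟩ := hf
  exact (uf_word_tm Z hl hZ s).congr fun u e => hs (Z u) e

theorem up_word {A B : Type} {P : List A → (ℕ → ℕ) → Prop} (hP : UP P) (Z : List B → List A)
    (hl : UF (fun u _ => (Z u).length)) (hZ : ∀ a, UP (fun u e => (Z u)[e 0]? = some a)) :
    UP (fun u e => P (Z u) e) := by
  classical
  exact uf_word (f := fun x e => if P x e then 1 else 0) hP Z hl hZ

end Pool.Agent.BookAvB
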