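import Pool.Agent.BookAv.Circ

/-!
# Nondeterministic circuits with oracle gates and prediction of languages
-/

set_option autoImplicit false

namespace Pool.Agent.BookAvB

open Filter Pool.Agent.BookAv

/-- A nondeterministic circuit of size `s` with `n` inputs and with oracle gates, in clausal form:
there are `s` auxiliary variables and a list of `s` clauses (of any width) on the `n` input
variables and the auxiliary variables; `clause i v b = true` means that the literal saying that the
variable `v` has the value `b` occurs in the clause `i`. The auxiliary variables `j` with
`gate j = true` are the outputs of oracle gates; such a gate asks for a word of length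
`len j ≤ s`, and the letter number `r` of this word is the disjunction of the variables `v` with
`wire j r v = true`. -/
structure BCirc (n s : ℕ) where
  clause : Fin s → Fin n ⊕ Fin s → Bool → Bool
  gate : Fin s → Bool
  len : Fin s → Fin (s + 1)
  wire : Fin s → Fin s → Fin n ⊕ Fin s → Bool

/-- The word asked for by the gate `j` if the values of the variables are given by `z`. -/
def BCirc.query {n s : ℕ} (C : BCirc n s) (j : Fin s) (z : Fin n ⊕ Fin s → Bool) : List Bool :=
  List.ofFn fun r : Fin (C.len j) =>
    decide (∃ v, C.wire j ⟨r, lt_of_lt_of_le r.2 (Nat.lt_succ_iff.1 (C.len j).2)⟩ v = true ∧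
      z v = true)

/-- `C`, with oracle `B`, accepts the input `x` if for some values `y` of the auxiliary variables
every clause contains a true literal, and the values of the outputs of the oracle gates are
right. -/
def BCirc.Acc (B : Set (List Bool)) {n s : ℕ} (C : BCirc n s) (x : Fin n → Bool) : Prop :=
  ∃ y : Fin s → Bool, (∀ i, ∃ v, C.clause i v (Sum.elim x y v) = true) ∧
    ∀ j, C.gate j = true → (y j = true ↔ C.query j (Sum.elim x y) ∈ B)

/-- The number of words `x` of length `n` for which `C` gives the right answer to the question
whether `x` is in `L`. -/
noncomputable def agreeB (B L : Set (List Bool)) {n s : ℕ} (C : BCirc n s) : ℕ :=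
  Nat.card {x : Fin n → Bool // (List.ofFn x ∈ L ↔ C.Acc B x)}

/-- For infinitely many `n` some nondeterministic circuit of size `2 ^ (log n) ^ k` with oracle
gates for `B` gives the right answer on more than the fraction `1/2 + 2 ^ (- (log n) ^ k)` of the
words of length `n`. -/
def PredictableB (B : Set (List Bool)) (k : ℕ) (L : Set (List Bool)) : Prop :=
  ∃ᶠ n in atTop, ∃ C : BCirc n (sz k n), ((1 : ℝ) / 2 + 1 / sz k n) * 2 ^ n < agreeB B L C

end Pool.Agent.BookAvB
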