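import Pool.Agent.BookAvB.And
import Pool.Agent.BookAv.OfUP

/-!
# Closure properties: connectives
-/

set_option autoImplicit false

namespace Pool.Agent.BookAvB

open Pool.Agent.PT Pool.Agent.Book19 Pool.Agent.BookPL Pool.Agent.BookAv

variable {t : ℕ} {P Q : (ℕ → List Bool) → Prop}

theorem PLP.congr (h : PLP t P) (e : ∀ W, P W ↔ Q W) : PLP t Q := by
  obtain ⟨S, h1, h2⟩ := h
  exact ⟨S, h1, fun W => (h2 W).trans (e W)⟩

theorem PLP.not (h : PLP t P) : PLP t (fun W => ¬ P W) := by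
  obtain ⟨S, h1, h2⟩ := h
  exact ⟨_, h1.compl, fun W => not_congr (h2 W)⟩

theorem PLP.and (h : PLP t P) (h' : PLP t Q) : PLP t (fun W => P W ∧ Q W) := by
  obtain ⟨S, h1, h2⟩ := h
  obtain ⟨S', h1', h2'⟩ := h'
  exact ⟨_, inPL_and h1 h1', fun W => and_congr (h2 W) (h2' W)⟩

theorem PLP.or (h : PLP t P) (h' : PLP t Q) : PLP t (fun W => P W ∨ Q W) :=
  (h.not.and h'.not).not.congr fun W => by tauto

theorem PLP.imp (h : PLP t P) (h' : PLP t Q) : PLP t (fun W => P W → Q W) :=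
  (h.not.or h').congr fun W => by tauto

theorem PLP.iff (h : PLP t P) (h' : PLP t Q) : PLP t (fun W => (P W ↔ Q W)) :=
  ((h.imp h').and (h'.imp h)).congr fun W => by tauto

theorem PLP.ofUP {P' : List (TB t) → Prop} (h : UP (fun Y _ => P' Y))
    (e : ∀ W, P' (mkW t W) ↔ P W) : PLP t P :=
  ⟨{Y | P' Y}, inPL_of_UP h, e⟩

end Pool.Agent.BookAvB
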