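import Pool.Agent.BookAvB.Defs

/-!
# Every circuit is given by a word
-/

set_option autoImplicit false

namespace Pool.Agent.BookAvB

open Filter Pool.Agent.PT Pool.Agent.Book19 Pool.Agent.BookPL Pool.Agent.BookAv

/-- the number of a variable -/
private def idx {n s : ℕ} : Fin n ⊕ Fin s → ℕ :=
  Sum.elim (fun u => (u : ℕ)) (fun j => n + (j : ℕ))

private theorem idx_inl {n s : ℕ} (u : Fin n) : idx (Sum.inl u : Fin n ⊕ Fin s) = (u : ℕ) := rfl

private theorem idx_inr {n s : ℕ} (j : Fin s) : idx (Sum.inr j : Fin n ⊕ Fin s) = n + (j : ℕ) :=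
  rfl

private theorem idx_lt {n s : ℕ} (v : Fin n ⊕ Fin s) : idx v < n + s := by
  rcases v with u | j
  · rw [idx_inl]
    omega
  · rw [idx_inr]
    omega

private theorem idx_inj {n s : ℕ} {v v' : Fin n ⊕ Fin s} (h : idx v = idx v') : v = v' := by
  rcases v with u | j <;> rcases v' with u' | j'
  · rw [idx_inl, idx_inl] at h
    rw [Fin.ext h]
  · rw [idx_inl, idx_inr] at h
    have := u.2
    omega
  · rw [idx_inl, idx_inr] at h
    have := u'.2
    omega
  · rw [idx_inr, idx_inr] at h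
    rw [Fin.ext (Nat.add_left_cancel h)]

private theorem exists_idx {n s u : ℕ} (hu : u < n + s) : ∃ v : Fin n ⊕ Fin s, idx v = u := by
  by_cases h : u < n
  · exact ⟨Sum.inl ⟨u, h⟩, rfl⟩
  · refine ⟨Sum.inr ⟨u - n, by omega⟩, ?_⟩
    rw [idx_inr]
    show n + (u - n) = u
    omega

private theorem digits_unique {D i i' u u' : ℕ} (hu : u < D) (hu' : u' < D)
    (h : i * D + u = i' * D + u') : i = i' ∧ u = u' := by
  have hD : 0 < D := by omega
  have h1 : ∀ j r : ℕ, r < D → (j * D + r) / D = j := by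
    intro j r hr
    rw [Nat.add_comm, Nat.add_mul_div_right _ _ hD, Nat.div_eq_of_lt hr, Nat.zero_add]
  have h2 : i = i' := by rw [← h1 i u hu, ← h1 i' u' hu', h]
  subst h2
  exact ⟨rfl, Nat.add_left_cancel h⟩

private theorem digits_lt {D S i u : ℕ} (hi : i < S) (hu : u < D) : i * D + u < S * D := by
  have h1 : (i + 1) * D ≤ S * D := Nat.mul_le_mul_right _ hi
  have h2 : (i + 1) * D = i * D + D := by ring
  omega

private theorem place_lt {n s i u b : ℕ} (hi : i < s) (hu : u < n + s) (hb : b < 2) :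
    (i * (n + s) + u) * 2 + b < 2 * s * (n + s) := by
  have h1 := digits_lt hi hu
  have h3 : 2 * s * (n + s) = 2 * (s * (n + s)) := by ring
  omega

/-- The word given by the circuit. -/
private def CA {n s : ℕ} (C : BCirc n s) (p : ℕ) : Prop :=
  (∃ (i : Fin s) (v : Fin n ⊕ Fin s) (b : Bool),
    p = (i * (n + s) + idx v) * 2 + b.toNat ∧ C.clause i v b = true) ∨
  (∃ j : Fin s, p = 2 * s * (n + s) + j ∧ C.gate j = true) ∨
  (∃ (j r : Fin s), p = 2 * s * (n + s) + s + (j * s + r) ∧ (r : ℕ) < C.len j) ∨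
  (∃ (j r : Fin s) (v : Fin n ⊕ Fin s),
    p = 2 * s * (n + s) + s + s * s + ((j * s + r) * (n + s) + idx v) ∧ C.wire j r v = true)

private theorem ca_clause {n s : ℕ} (C : BCirc n s) (i : Fin s) (v : Fin n ⊕ Fin s) (b : Bool) :
    C.clause i v b = true ↔ CA C ((i * (n + s) + idx v) * 2 + b.toNat) := by
  have hb2 : ∀ b : Bool, b.toNat < 2 := Bool.toNat_lt
  have hlt := place_lt (n := n) i.2 (idx_lt v) (hb2 b)
  constructor
  · exact fun h1 => Or.inl ⟨i, v, b, rfl, h1⟩
  · rintro (⟨i', v', b', h1, h2⟩ | ⟨j, h1, h2⟩ | ⟨j, r, h1, h2⟩ | ⟨j, r, v', h1, h2⟩)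
    · have e1 := hb2 b
      have e2 := hb2 b'
      have e3 : b.toNat = b'.toNat := by omega
      have e4 : (i : ℕ) * (n + s) + idx v = i' * (n + s) + idx v' := by omega
      obtain ⟨e5, e6⟩ := digits_unique (idx_lt v) (idx_lt v') e4
      have e7 : b = b' := by
        cases b <;> cases b' <;> simp_all
      rw [Fin.ext e5, idx_inj e6, e7]
      exact h2
    · omega
    · omega
    · omega

private theorem ca_gate {n s : ℕ} (C : BCirc n s) (j : Fin s) :
    C.gate j = true ↔ CA C (2 * s * (n + s) + j) := by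
  have hb2 : ∀ b : Bool, b.toNat < 2 := Bool.toNat_lt
  have hj := j.2
  constructor
  · exact fun h1 => Or.inr (Or.inl ⟨j, rfl, h1⟩)
  · rintro (⟨i', v', b', h1, h2⟩ | ⟨j', h1, h2⟩ | ⟨j', r, h1, h2⟩ | ⟨j', r, v', h1, h2⟩)
    · have := place_lt (n := n) i'.2 (idx_lt v') (hb2 b')
      omega
    · have : j = j' := Fin.ext (Nat.add_left_cancel h1)
      rw [this]
      exact h2
    · omega
    · omega

private theorem ca_len {n s : ℕ} (C : BCirc n s) (j r : Fin s) :
    (r : ℕ) < C.len j ↔ CA C (2 * s * (n + s) + s + (j * s + r)) := by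
  have hb2 : ∀ b : Bool, b.toNat < 2 := Bool.toNat_lt
  have hlt := digits_lt j.2 r.2
  constructor
  · exact fun h1 => Or.inr (Or.inr (Or.inl ⟨j, r, rfl, h1⟩))
  · rintro (⟨i', v', b', h1, h2⟩ | ⟨j', h1, h2⟩ | ⟨j', r', h1, h2⟩ | ⟨j', r', v', h1, h2⟩)
    · have := place_lt (n := n) i'.2 (idx_lt v') (hb2 b')
      omega
    · have := j'.2
      omega
    · obtain ⟨e1, e2⟩ := digits_unique r.2 r'.2 (Nat.add_left_cancel h1)
      rw [Fin.ext e1, e2]
      exact h2
    · omega

private theorem ca_wire {n s : ℕ} (C : BCirc n s) (j r : Fin s) (v : Fin n ⊕ Fin s) :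
    C.wire j r v = true ↔
      CA C (2 * s * (n + s) + s + s * s + ((j * s + r) * (n + s) + idx v)) := by
  have hb2 : ∀ b : Bool, b.toNat < 2 := Bool.toNat_lt
  constructor
  · exact fun h1 => Or.inr (Or.inr (Or.inr ⟨j, r, v, rfl, h1⟩))
  · rintro (⟨i', v', b', h1, h2⟩ | ⟨j', h1, h2⟩ | ⟨j', r', h1, h2⟩ | ⟨j', r', v', h1, h2⟩)
    · have := place_lt (n := n) i'.2 (idx_lt v') (hb2 b')
      omega
    · have := j'.2
      omega
    · have := digits_lt j'.2 r'.2
      omega
    · obtain ⟨e1, e2⟩ := digits_unique (idx_lt v) (idx_lt v') (Nat.add_left_cancel h1)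
      obtain ⟨e3, e4⟩ := digits_unique r.2 r'.2 e1
      rw [Fin.ext e3, Fin.ext e4, idx_inj e2]
      exact h2

private theorem bt_ofFn {m : ℕ} (f : Fin m → Bool) (p : ℕ) :
    bt (List.ofFn f) p ↔ ∃ h : p < m, f ⟨p, h⟩ = true := by
  unfold bt
  rw [List.getElem?_ofFn]
  by_cases h : p < m
  · simp [h]
  · simp [h]

private theorem cnt_lt {m c : ℕ} (hc : c ≤ m) {P : ℕ → Prop} (hP : ∀ r < m, (P r ↔ r < c)) :
    cnt m P = c := by
  classical
  unfold cnt
  have h1 : ∑ v ∈ Finset.range m, @ite ℕ (P v) (Classical.propDecidable _) 1 0 =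
      ∑ v ∈ Finset.range m, if v ∈ Finset.range c then 1 else 0 := by
    refine Finset.sum_congr rfl fun v hv => ?_
    have h2 := hP v (Finset.mem_range.1 hv)
    by_cases h3 : v < c
    · rw [if_pos (h2.2 h3), if_pos (Finset.mem_range.2 h3)]
    · rw [if_neg (fun h4 => h3 (h2.1 h4)), if_neg (fun h4 => h3 (Finset.mem_range.1 h4))]
  rw [h1, Finset.sum_ite_mem, Finset.inter_eq_right.2 (Finset.range_mono hc)]
  simp

section Eq

variable {n s : ℕ} (x : Fin n → Bool) (y : Fin s → Bool)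

private theorem vl_iff (v : Fin n ⊕ Fin s) :
    Vl n (List.ofFn x) (List.ofFn y) (idx v) ↔ Sum.elim x y v = true := by
  unfold Vl
  rcases v with u | j
  · rw [idx_inl, Sum.elim_inl, bt_ofFn]
    constructor
    · rintro (⟨_, _, h⟩ | ⟨h, _⟩)
      · exact h
      · have := u.2
        omega
    · exact fun h => Or.inl ⟨u.2, u.2, h⟩
  · rw [idx_inr, Sum.elim_inr, bt_ofFn, bt_ofFn]
    constructor
    · rintro (⟨h, _⟩ | ⟨_, h1, h2⟩)
      · omega
      · have e : (⟨n + (j : ℕ) - n, h1⟩ : Fin s) = j := Fin.ext (Nat.add_sub_cancel_left _ _)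
        rw [e] at h2
        exact h2
    · intro h
      have h1 : n + (j : ℕ) - n < s := by
        rw [Nat.add_sub_cancel_left]
        exact j.2
      have e : (⟨n + (j : ℕ) - n, h1⟩ : Fin s) = j := Fin.ext (Nat.add_sub_cancel_left _ _)
      refine Or.inr ⟨by omega, h1, ?_⟩
      rw [e]
      exact h

variable {C : BCirc n s} {a : List Bool}
  (h1 : ∀ i v b, (C.clause i v b = true ↔ bt a ((i * (n + s) + idx v) * 2 + b.toNat)))
  (h2 : ∀ j : Fin s, (C.gate j = true ↔ bt a (2 * s * (n + s) + j)))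
  (h3 : ∀ j r : Fin s, ((r : ℕ) < C.len j ↔ bt a (2 * s * (n + s) + s + (j * s + r))))
  (h4 : ∀ (j r : Fin s) v, (C.wire j r v = true ↔
    bt a (2 * s * (n + s) + s + s * s + ((j * s + r) * (n + s) + idx v))))

include h1 in
private theorem clause_iff (i : Fin s) :
    (∃ u < n + s,
      (Vl n (List.ofFn x) (List.ofFn y) u ∧ bt a ((i * (n + s) + u) * 2 + 1)) ∨
      (¬ Vl n (List.ofFn x) (List.ofFn y) u ∧ bt a ((i * (n + s) + u) * 2))) ↔
    ∃ v, C.clause i v (Sum.elim x y v) = true := by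
  have hlit : ∀ v' : Fin n ⊕ Fin s,
      ((Vl n (List.ofFn x) (List.ofFn y) (idx v') ∧ bt a ((i * (n + s) + idx v') * 2 + 1)) ∨
        (¬ Vl n (List.ofFn x) (List.ofFn y) (idx v') ∧ bt a ((i * (n + s) + idx v') * 2))) ↔
      C.clause i v' (Sum.elim x y v') = true := by
    intro v'
    rw [vl_iff x y v']
    have g1 := h1 i v' true
    have g0 := h1 i v' false
    simp only [Bool.toNat_true, Bool.toNat_false, Nat.add_zero] at g1 g0
    cases h : Sum.elim x y v'
    · rw [g0]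
      simp
    · rw [g1]
      simp
  constructor
  · rintro ⟨u, hu, hu2⟩
    obtain ⟨v', rfl⟩ := exists_idx hu
    exact ⟨v', (hlit v').1 hu2⟩
  · rintro ⟨v', hv'⟩
    exact ⟨idx v', idx_lt v', (hlit v').2 hv'⟩

include h3 h4 in
private theorem qry_eq (j : Fin s) :
    qry n s (List.ofFn x) a (List.ofFn y) j = C.query j (Sum.elim x y) := by
  have hc : cnt s (fun r => bt a (2 * s * (n + s) + s + ((j : ℕ) * s + r))) = C.len j :=
    cnt_lt (Nat.lt_succ_iff.1 (C.len j).2) fun r hr => (h3 j ⟨r, hr⟩).symm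
  unfold qry BCirc.query
  refine List.ext_getElem ?_ fun p hp1 hp2 => ?_
  · rw [List.length_map, List.length_range, List.length_ofFn, hc]
  · rw [List.length_ofFn] at hp2
    rw [List.getElem_map, List.getElem_range, List.getElem_ofFn, decide_eq_decide]
    have hps : p < s := lt_of_lt_of_le hp2 (Nat.lt_succ_iff.1 (C.len j).2)
    constructor
    · rintro ⟨u, hu, g1, g2⟩
      obtain ⟨v', rfl⟩ := exists_idx hu
      exact ⟨v', (h4 j ⟨p, hps⟩ v').2 g2, (vl_iff x y v').1 g1⟩
    · rintro ⟨v', g1, g2⟩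
      exact ⟨idx v', idx_lt v', (vl_iff x y v').2 g2, (h4 j ⟨p, hps⟩ v').1 g1⟩

end Eq

private theorem exists_ofFn {s : ℕ} (y : List Bool) (h : y.length = s) :
    ∃ f : Fin s → Bool, y = List.ofFn f := by
  subst h
  exact ⟨y.get, (List.ofFn_get y).symm⟩

private theorem exists_word {n s : ℕ} (C : BCirc n s) : ∃ a : List Bool, a.length = DD n s ∧
    (∀ i v b, (C.clause i v b = true ↔ bt a ((i * (n + s) + idx v) * 2 + b.toNat))) ∧
    (∀ j : Fin s, (C.gate j = true ↔ bt a (2 * s * (n + s) + j))) ∧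
    (∀ j r : Fin s, ((r : ℕ) < C.len j ↔ bt a (2 * s * (n + s) + s + (j * s + r)))) ∧
    (∀ (j r : Fin s) v, (C.wire j r v = true ↔
      bt a (2 * s * (n + s) + s + s * s + ((j * s + r) * (n + s) + idx v)))) := by
  classical
  have hbt : ∀ p < DD n s,
      (bt (List.ofFn (fun p : Fin (DD n s) => decide (CA C p))) p ↔ CA C p) := by
    intro p hp
    rw [bt_ofFn]
    constructor
    · rintro ⟨_, h⟩
      exact of_decide_eq_true h
    · intro h
      exact ⟨hp, decide_eq_true h⟩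
  have hDD : DD n s = 2 * s * (n + s) + s + s * s + s * s * (n + s) := rfl
  refine ⟨List.ofFn (fun p : Fin (DD n s) => decide (CA C p)), List.length_ofFn, ?_, ?_, ?_, ?_⟩
  · intro i v b
    rw [hbt, ← ca_clause]
    have := place_lt (n := n) i.2 (idx_lt v) (Bool.toNat_lt b)
    omega
  · intro j
    rw [hbt, ← ca_gate]
    have := j.2
    omega
  · intro j r
    rw [hbt, ← ca_len]
    have := digits_lt j.2 r.2
    omega
  · intro j r v
    rw [hbt, ← ca_wire]
    have g1 := digits_lt (digits_lt j.2 r.2) (idx_lt v)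
    omega

theorem exists_code (k n : ℕ) (C : BCirc n (sz k n)) :
    ∃ a : List Bool, a.length = DD n (sz k n) ∧
      ∀ (B : Set (List Bool)) (x : Fin n → Bool), (EvP B k (List.ofFn x) a ↔ C.Acc B x) := by
  obtain ⟨a, hlen, h1, h2, h3, h4⟩ := exists_word C
  refine ⟨a, hlen, fun B x => ?_⟩
  unfold EvP BCirc.Acc
  simp only [List.length_ofFn]
  constructor
  · rintro ⟨_, w, hw, hC, hg⟩
    obtain ⟨y, rfl⟩ := exists_ofFn w hw
    refine ⟨y, fun i => (clause_iff x y h1 i).1 (hC i i.2), fun j hj => ?_⟩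
    have g := hg j j.2 ((h2 j).1 hj)
    rw [qry_eq x y h3 h4 j, bt_ofFn] at g
    rw [← g]
    exact ⟨fun h => ⟨j.2, h⟩, fun ⟨_, h⟩ => h⟩
  · rintro ⟨y, hC, hg⟩
    refine ⟨?_, List.ofFn y, List.length_ofFn, fun i hi => (clause_iff x y h1 ⟨i, hi⟩).2 (hC ⟨i, hi⟩),
      fun j hj hj2 => ?_⟩
    · rw [hlen]
      unfold DD
      omega
    · have g := hg ⟨j, hj⟩ ((h2 ⟨j, hj⟩).2 hj2)
      rw [bt_ofFn]
      have e := qry_eq x y h3 h4 ⟨j, hj⟩
      rw [show qry n (sz k n) (List.ofFn x) a (List.ofFn y) j =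
        C.query ⟨j, hj⟩ (Sum.elim x y) from e, ← g]
      exact ⟨fun ⟨_, h⟩ => h, fun h => ⟨hj, h⟩⟩

theorem sizesB (k : ℕ) : ∀ᶠ n in atTop, DD n (sz k n) ≤ sz (k + 2) n := by
  have hlog : Tendsto (fun n : ℕ => Nat.log 2 n) atTop atTop := by
    refine tendsto_atTop.mpr fun b => ?_
    filter_upwards [eventually_ge_atTop (2 ^ b)] with n hn
    exact (Nat.le_log_iff_pow_le (by norm_num) (by
      have : 0 < 2 ^ b := by positivity
      omega)).mpr hn
  filter_upwards [hlog.eventually (eventually_ge_atTop 4)] with n h4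
  unfold DD sz
  set l := Nat.log 2 n with hl
  have hn : n < 2 ^ (l + 1) := Nat.lt_pow_succ_log_self (by norm_num) n
  set e := l ^ k with he
  have he1 : 1 ≤ e := Nat.one_le_pow _ _ (by omega)
  have hb : l ^ (k + 2) = e * (l * l) := by rw [he]; ring
  rw [hb]
  set A := 2 ^ e with hA
  have hA1 : 1 ≤ A := Nat.one_le_two_pow
  have hns : n + A ≤ 2 ^ (l + 2) * A := by
    have h1 : 2 ^ (l + 2) = 2 * 2 ^ (l + 1) := by ring
    have h2 : 2 ^ (l + 1) ≤ 2 ^ (l + 1) * A := Nat.le_mul_of_pos_right _ (by omega)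
    have h3 : A ≤ 2 ^ (l + 1) * A := Nat.le_mul_of_pos_left _ (by positivity)
    have h4 : 2 ^ (l + 2) * A = 2 ^ (l + 1) * A + 2 ^ (l + 1) * A := by rw [h1]; ring
    omega
  have hT : 2 * A * (n + A) + A + A * A + A * A * (n + A) ≤ 8 * (A * A * (n + A)) := by
    have h1 : 1 ≤ n + A := by omega
    have g1 : A * (n + A) ≤ A * (A * (n + A)) := Nat.le_mul_of_pos_left _ (by omega)
    have g2 : A * A ≤ A * A * (n + A) := Nat.le_mul_of_pos_right _ (by omega)
    have g3 : A ≤ A * A := Nat.le_mul_of_pos_left _ (by omega)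
    have g4 : A * (A * (n + A)) = A * A * (n + A) := by ring
    have g5 : 2 * A * (n + A) = 2 * (A * (n + A)) := by ring
    omega
  have hexp : 3 * e + l + 5 ≤ e * (l * l) := by
    have g1 : 4 * l ≤ l * l := Nat.mul_le_mul_right _ h4
    have g2 : e * (4 * l) ≤ e * (l * l) := Nat.mul_le_mul_left _ g1
    have g3 : e * (4 * l) = e * l + 3 * (e * l) := by ring
    have g4 : l ≤ e * l := Nat.le_mul_of_pos_left _ he1
    have g5 : e * 4 ≤ e * l := Nat.mul_le_mul_left _ h4
    omega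
  calc 2 * A * (n + A) + A + A * A + A * A * (n + A) ≤ 8 * (A * A * (n + A)) := hT
    _ ≤ 8 * (A * A * (2 ^ (l + 2) * A)) := by gcongr
    _ = 2 ^ (3 * e + l + 5) := by
        rw [hA]
        have : 3 * e + l + 5 = 3 + (e + e + (l + 2 + e)) := by ring
        rw [this, pow_add, pow_add, pow_add, pow_add]
        ring
    _ ≤ 2 ^ (e * (l * l)) := Nat.pow_le_pow_right (by norm_num) hexp

end Pool.Agent.BookAvB
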