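import Pool.Agent.BookAvB.QuantU

/-!
# The evaluation of circuits with oracle gates is possible in polylogarithmic space
-/

set_option autoImplicit false

namespace Pool.Agent.BookAvB

open Filter Pool.Agent.PT Pool.Agent.Book19 Pool.Agent.BookPL Pool.Agent.BookAv
open Function (update)

section Terms

variable {t : ℕ}

/-- The size of the circuit. -/
private noncomputable def SY (k : ℕ) (Y : List (TB t)) : ℕ := pw Y (Nat.log 2 (sc 0 Y) ^ k)

/-- The value of the variable `u`. -/
private def VY (Y : List (TB t)) (u : ℕ) : Prop :=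
  (u < sc 0 Y ∧ bit 0 Y u) ∨ (sc 0 Y ≤ u ∧ bit 2 Y (u - sc 0 Y))

/-- All clauses are satisfied. -/
private def CY (k : ℕ) (Y : List (TB t)) : Prop :=
  ∀ i < SY k Y, ∃ u < sc 0 Y + SY k Y,
    (VY Y u ∧ bit 1 Y ((i * (sc 0 Y + SY k Y) + u) * 2 + 1)) ∨
    (¬ VY Y u ∧ bit 1 Y ((i * (sc 0 Y + SY k Y) + u) * 2))

/-- The word `a` is long. -/
private def GY (k : ℕ) (Y : List (TB t)) : Prop :=
  1 ≤ sc 1 Y ∧ Nat.log 2 (sc 0 Y) ^ k ≤ Nat.log 2 (sc 1 Y)

/-- The length of the question. -/
private noncomputable def LY (k : ℕ) (Y : List (TB t)) : ℕ :=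
  cnt (SY k Y) (fun r =>
    bit 1 Y (2 * SY k Y * (sc 0 Y + SY k Y) + SY k Y + (sc 3 Y * SY k Y + r)))

/-- The letters of the question. -/
private def BY (k : ℕ) (Y : List (TB t)) (r : ℕ) : Prop :=
  ∃ u < sc 0 Y + SY k Y, VY Y u ∧
    bit 1 Y (2 * SY k Y * (sc 0 Y + SY k Y) + SY k Y + SY k Y * SY k Y +
      ((sc 3 Y * SY k Y + r) * (sc 0 Y + SY k Y) + u))

private theorem uf_SY (k : ℕ) : UF (fun (Y : List (TB t)) _ => SY k Y) :=
  uf_pw ((UF.log2 (uf_sc 0)).pow k)

private theorem up_VY {f : List (TB t) → (ℕ → ℕ) → ℕ} (hf : UF f) :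
    UP (fun Y e => VY Y (f Y e)) :=
  ((UP.lt hf (uf_sc 0)).and (up_bit 0 hf)).or
    ((UP.le (uf_sc 0) hf).and (up_bit 2 (hf.sub (uf_sc 0))))

private theorem up_CY (k : ℕ) : UP (fun (Y : List (TB t)) _ => CY k Y) := by
  unfold CY
  refine UP.ball (P := fun Y _ i => ∃ u < sc 0 Y + SY k Y,
    (VY Y u ∧ bit 1 Y ((i * (sc 0 Y + SY k Y) + u) * 2 + 1)) ∨
    (¬ VY Y u ∧ bit 1 Y ((i * (sc 0 Y + SY k Y) + u) * 2))) (uf_SY k) ?_
  refine UP.bex (P := fun Y e u =>
    (VY Y u ∧ bit 1 Y ((e 0 * (sc 0 Y + SY k Y) + u) * 2 + 1)) ∨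
    (¬ VY Y u ∧ bit 1 Y ((e 0 * (sc 0 Y + SY k Y) + u) * 2)))
    ((uf_sc 0).add (uf_SY k)) ?_
  have hi : UF (fun (Y : List (TB t)) (e : ℕ → ℕ) => (e 1 * (sc 0 Y + SY k Y) + e 0) * 2) :=
    (((UF.var 1).mul ((uf_sc 0).add (uf_SY k))).add (UF.var 0)).mul (UF.const 2)
  exact ((up_VY (UF.var 0)).and (up_bit 1 (hi.add (UF.const 1)))).or
    ((up_VY (UF.var 0)).not.and (up_bit 1 hi))

private theorem up_GY (k : ℕ) : UP (fun (Y : List (TB t)) _ => GY k Y) :=
  (UP.le (UF.const 1) (uf_sc 1)).and
    (UP.le ((UF.log2 (uf_sc 0)).pow k) (UF.log2 (uf_sc 1)))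

private theorem uf_q1 (k : ℕ) :
    UF (fun (Y : List (TB t)) _ => 2 * SY k Y * (sc 0 Y + SY k Y)) :=
  ((UF.const 2).mul (uf_SY k)).mul ((uf_sc 0).add (uf_SY k))

private theorem uf_LY (k : ℕ) : UF (fun (Y : List (TB t)) _ => LY k Y) := by
  unfold LY
  refine uf_cnt (m := fun Y _ => SY k Y) (P := fun Y _ r =>
    bit 1 Y (2 * SY k Y * (sc 0 Y + SY k Y) + SY k Y + (sc 3 Y * SY k Y + r))) (uf_SY k) ?_
  exact up_bit 1 (((uf_q1 k).add (uf_SY k)).add (((uf_sc 3).mul (uf_SY k)).add (UF.var 0)))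

private theorem up_BY (k : ℕ) : UP (fun (Y : List (TB t)) e => BY k Y (e 0)) := by
  unfold BY
  refine UP.bex (P := fun Y e u => VY Y u ∧
    bit 1 Y (2 * SY k Y * (sc 0 Y + SY k Y) + SY k Y + SY k Y * SY k Y +
      ((sc 3 Y * SY k Y + e 0) * (sc 0 Y + SY k Y) + u))) ((uf_sc 0).add (uf_SY k)) ?_
  exact (up_VY (UF.var 0)).and (up_bit 1
    ((((uf_q1 k).add (uf_SY k)).add ((uf_SY k).mul (uf_SY k))).add
      (((((uf_sc 3).mul (uf_SY k)).add (UF.var 1)).mul ((uf_sc 0).add (uf_SY k))).add
        (UF.var 0))))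

private theorem VY_mkW (ht : 2 ≤ t) (W : ℕ → List Bool) (u : ℕ) :
    VY (mkW t W) u ↔ Vl (W 0).length (W 0) (W 2) u := by
  unfold VY Vl
  rw [sc_mkW (by omega), bit_mkW (by omega), bit_mkW ht]

private theorem GY_mkW (k : ℕ) (ht : 1 ≤ t) (W : ℕ → List Bool) :
    GY k (mkW t W) ↔ sz k (W 0).length ≤ (W 1).length := by
  unfold GY sz
  rw [sc_mkW (i := 0) (by omega), sc_mkW (i := 1) ht]
  constructor
  · rintro ⟨h1, h2⟩
    exact (Nat.le_log_iff_pow_le (by norm_num) (by omega)).1 h2
  · intro h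
    have h1 : 1 ≤ (W 1).length := Nat.one_le_two_pow.trans h
    exact ⟨h1, (Nat.le_log_iff_pow_le (by norm_num) (by omega)).2 h⟩

private theorem SY_mkW (k : ℕ) (ht : 1 ≤ t) (W : ℕ → List Bool)
    (h : sz k (W 0).length ≤ (W 1).length) : SY k (mkW t W) = sz k (W 0).length := by
  unfold SY
  rw [sc_mkW (by omega), pw_eq]
  · rfl
  · refine h.trans ?_
    rw [length_mkW]
    exact Finset.single_le_sum (f := fun i => (W i).length) (fun _ _ => Nat.zero_le _)
      (Finset.mem_range.2 (by omega))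

private theorem CY_mkW (k : ℕ) (ht : 2 ≤ t) (W : ℕ → List Bool)
    (h : sz k (W 0).length ≤ (W 1).length) : CY k (mkW t W) ↔
      ∀ i < sz k (W 0).length, ∃ u < (W 0).length + sz k (W 0).length,
      (Vl (W 0).length (W 0) (W 2) u ∧
        bt (W 1) ((i * ((W 0).length + sz k (W 0).length) + u) * 2 + 1)) ∨
      (¬ Vl (W 0).length (W 0) (W 2) u ∧
        bt (W 1) ((i * ((W 0).length + sz k (W 0).length) + u) * 2)) := by
  unfold CY
  rw [SY_mkW k (by omega) W h, sc_mkW (by omega)]
  refine forall_congr' fun i => forall_congr' fun _ => exists_congr fun u => and_congr_right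
    fun _ => ?_
  rw [VY_mkW ht, bit_mkW (by omega), bit_mkW (by omega)]

end Terms

private theorem bt_map_range {c : ℕ} {P : ℕ → Prop} {inst : ∀ r, Decidable (P r)} {p : ℕ} :
    bt ((List.range c).map fun r => @decide (P r) (inst r)) p ↔ p < c ∧ P p := by
  unfold bt
  rw [List.getElem?_map]
  by_cases h : p < c
  · rw [List.getElem?_eq_getElem (by simpa using h)]
    simp [h]
  · rw [List.getElem?_eq_none (by simpa using h)]
    simp [h]

private theorem cnt_congr {m : ℕ} {P Q : ℕ → Prop} (h : ∀ v, P v ↔ Q v) : cnt m P = cnt m Q := by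
  have : P = Q := funext fun v => propext (h v)
  rw [this]

/-- The statement on one oracle gate is decidable in polylogarithmic space. -/
private theorem plp_gate {B : Set (List Bool)} (hB : InPL Bool B) (k : ℕ) :
    PLP 3 (fun W => bt (W 1) (2 * SY k (mkW 3 W) * ((W 0).length + SY k (mkW 3 W)) +
      (W 3).length) → (bt (W 2) (W 3).length ↔
        qry (W 0).length (SY k (mkW 3 W)) (W 0) (W 1) (W 2) (W 3).length ∈ B)) := by
  refine PLP.imp ?_ (PLP.iff ?_ ?_)
  · refine PLP.ofUP (P' := fun Y => bit 1 Y (2 * SY k Y * (sc 0 Y + SY k Y) + sc 3 Y))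
      (up_bit 1 ((uf_q1 k).add (uf_sc 3))) fun W => ?_
    rw [bit_mkW (by omega), sc_mkW (by omega), sc_mkW (by omega)]
  · refine PLP.ofUP (P' := fun Y => bit 2 Y (sc 3 Y)) (up_bit 2 (uf_sc 3)) fun W => ?_
    rw [bit_mkW (by omega), sc_mkW (by omega)]
  · refine PLP.sub (PLP.ofOne hB)
      (fun _ W => qry (W 0).length (SY k (mkW 3 W)) (W 0) (W 1) (W 2) (W 3).length)
      (fun _ Y => LY k Y) (fun _ Y p => BY k Y p) (fun _ _ => uf_LY k) (fun _ _ => up_BY k) ?_
    intro W i _
    have hlen : (qry (W 0).length (SY k (mkW 3 W)) (W 0) (W 1) (W 2) (W 3).length).length =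
        LY k (mkW 3 W) := by
      unfold qry LY
      rw [List.length_map, List.length_range, sc_mkW (by omega), sc_mkW (by omega)]
      exact cnt_congr fun r => (bit_mkW (by omega) W _).symm
    refine ⟨hlen, fun p hp => ?_⟩
    have hp' := hp
    unfold qry at hp' ⊢
    rw [List.length_map, List.length_range] at hp'
    rw [bt_map_range]
    unfold BY
    rw [sc_mkW (by omega), sc_mkW (by omega)]
    constructor
    · rintro ⟨_, u, hu, h1, h2⟩
      exact ⟨u, hu, (VY_mkW (by omega) W u).2 h1, (bit_mkW (by omega) W _).2 h2⟩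
    · rintro ⟨u, hu, h1, h2⟩
      exact ⟨hp', u, hu, (VY_mkW (by omega) W u).1 h1, (bit_mkW (by omega) W _).1 h2⟩

/-- Blocks: `0` is `x`, `1` is `a`; `exU` for `y`, `ballU` for the statement on the oracle gates, with
`PLP.ofOne` and `PLP.sub`. -/
theorem exists_eval (H : ∀ (A : Type) [Fintype A] (L : Set (List A)), InNPc A L → InPL A L)
    {B : Set (List Bool)} (hB : InPL Bool B) (k : ℕ) :
    ∃ E : Set (List (Bool ⊕ Bool)), InPL _ E ∧ ∀ x a : List Bool, (pr x a ∈ E ↔ EvP B k x a) := by
  have h3 := PLP.ballU (t := 2) H (plp_gate hB k) (F := SY k) (uf_SY k)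
  have h2 := (PLP.ofUP (t := 2) (P' := GY k) (up_GY k) (fun W => GY_mkW k (by omega) W)).and
    ((PLP.ofUP (t := 2) (P := fun W => (W 2).length = SY k (mkW 2 W))
      (P' := fun Y => sc 2 Y = SY k Y) (UP.eq (uf_sc 2) (uf_SY k))
      (fun W => by rw [sc_mkW (by omega)])).and
    ((PLP.ofUP (t := 2) (P := fun W => CY k (mkW 2 W)) (P' := CY k) (up_CY k)
      (fun W => Iff.rfl)).and h3))
  have h1 := PLP.exU (t := 1) H h2 (F := SY k) (uf_SY k)
  have h0 : PLP 1 (fun W => EvP B k (W 0) (W 1)) := by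
    refine h1.congr fun W => ?_
    unfold EvP
    constructor
    · rintro ⟨w, hw, hG, hl, hC, hg⟩
      have e0 : update W 2 w 0 = W 0 := Function.update_of_ne (by omega) _ _
      have e1 : update W 2 w 1 = W 1 := Function.update_of_ne (by omega) _ _
      have e2 : update W 2 w 2 = w := Function.update_self _ _ _
      have hS : SY k (mkW 2 (update W 2 w)) = sz k (W 0).length := by
        rw [SY_mkW k (by omega) _ hG, e0]
      have hC' := (CY_mkW k (by omega) _ hG).1 hC
      simp only [e0, e1, e2] at hG hl hC' hg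
      rw [hS] at hl
      refine ⟨hG, w, hl, hC', fun j hj hj2 => ?_⟩
      have h4 := hg j (by rw [hS]; exact hj)
      have f0 : update (update W 2 w) 3 (List.replicate j true) 0 = W 0 := by
        rw [Function.update_of_ne (by omega), e0]
      have f1 : update (update W 2 w) 3 (List.replicate j true) 1 = W 1 := by
        rw [Function.update_of_ne (by omega), e1]
      have f2 : update (update W 2 w) 3 (List.replicate j true) 2 = w := by
        rw [Function.update_of_ne (by omega), e2]
      have f3 : update (update W 2 w) 3 (List.replicate j true) 3 = List.replicate j true :=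
        Function.update_self _ _ _
      have hS' : SY k (mkW 3 (update (update W 2 w) 3 (List.replicate j true))) =
          sz k (W 0).length := by
        rw [SY_mkW k (by omega) _ (by rw [f0, f1]; exact hG), f0]
      simp only [f0, f1, f2, f3, hS', List.length_replicate] at h4
      exact h4 hj2
    · rintro ⟨hG, w, hl, hC, hg⟩
      have e0 : update W 2 w 0 = W 0 := Function.update_of_ne (by omega) _ _
      have e1 : update W 2 w 1 = W 1 := Function.update_of_ne (by omega) _ _
      have e2 : update W 2 w 2 = w := Function.update_self _ _ _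
      have hG' : sz k (update W 2 w 0).length ≤ (update W 2 w 1).length := by
        rw [e0, e1]
        exact hG
      have hS : SY k (mkW 2 (update W 2 w)) = sz k (W 0).length := by
        rw [SY_mkW k (by omega) _ hG', e0]
      refine ⟨w, ?_, hG', ?_, ?_, ?_⟩
      · rw [hl, SY_mkW k (by omega) _ hG]
      · show (update W 2 w 2).length = SY k (mkW 2 (update W 2 w))
        rw [hS, e2, hl]
      · refine (CY_mkW k (by omega) _ hG').2 ?_
        rw [e0, e1, e2]
        exact hC
      · intro j hj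
        rw [hS] at hj
        have f0 : update (update W 2 w) 3 (List.replicate j true) 0 = W 0 := by
          rw [Function.update_of_ne (by omega), e0]
        have f1 : update (update W 2 w) 3 (List.replicate j true) 1 = W 1 := by
          rw [Function.update_of_ne (by omega), e1]
        have f2 : update (update W 2 w) 3 (List.replicate j true) 2 = w := by
          rw [Function.update_of_ne (by omega), e2]
        have f3 : update (update W 2 w) 3 (List.replicate j true) 3 = List.replicate j true :=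
          Function.update_self _ _ _
        have hS' : SY k (mkW 3 (update (update W 2 w) 3 (List.replicate j true))) =
            sz k (W 0).length := by
          rw [SY_mkW k (by omega) _ (by rw [f0, f1]; exact hG), f0]
        simp only [f0, f1, f2, f3, hS', List.length_replicate]
        exact hg j hj
  obtain ⟨E, hE, hE2⟩ := h0.toPair
  refine ⟨E, hE, fun x a => ?_⟩
  exact hE2 (fun i => if i = 0 then x else a)

end Pool.Agent.BookAvB
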