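import Pool.Agent.BookAvB.CoreE
import Pool.Agent.BookAvB.Eval
import Pool.Agent.BookAvB.CodeB

/-!
# POLYLOGSPACE against NP, nonuniformly, on average and relative to languages in POLYLOGSPACE
-/

set_option autoImplicit false

namespace Pool.Agent.BookAvB

open Filter Pool.Agent.PT Pool.Agent.Book19 Pool.Agent.BookPL Pool.Agent.BookAv

theorem core (k : ℕ) (B : Set (List Bool)) (hB : InPL Bool B) :
    ¬ ((∀ (A : Type) [Fintype A] (L : Set (List A)), InNPc A L → InPL A L) ∧
      ∀ L : Set (List Bool), InPL Bool L → PredictableB B k L) := by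
  rintro ⟨H, hP⟩
  obtain ⟨E, hE, hEv⟩ := exists_eval H hB k
  obtain ⟨L, hL, hag⟩ := coreE H hE (k + 2)
  have hsz : ∀ᶠ n in atTop, sz k n ≤ sz (k + 2) n := by
    filter_upwards [eventually_ge_atTop 2] with n hn
    unfold sz
    refine Nat.pow_le_pow_right (by norm_num) (Nat.pow_le_pow_right ?_ (by omega))
    exact Nat.log_pos (by norm_num) hn
  obtain ⟨n, ⟨C, hC⟩, h1, h2, h3⟩ := ((hP L hL).and_eventually
    (hag.and ((sizesB k).and hsz))).exists
  obtain ⟨a, ha, hcode⟩ := exists_code k n C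
  have h4 := h1 a (by rw [ha]; exact h2)
  have h5 : agreeE L E n a = agreeB B L C := by
    unfold agreeE agreeB
    refine Nat.card_congr (Equiv.subtypeEquivRight fun x => ?_)
    rw [hEv, hcode]
  rw [h5] at h4
  have h6 : (0 : ℝ) < sz k n := by unfold sz; positivity
  have h7 : (1 : ℝ) / sz (k + 2) n ≤ 1 / sz k n :=
    one_div_le_one_div_of_le h6 (by exact_mod_cast h3)
  have h8 : ((1 : ℝ) / 2 + 1 / sz (k + 2) n) * 2 ^ n ≤ ((1 : ℝ) / 2 + 1 / sz k n) * 2 ^ n :=
    mul_le_mul_of_nonneg_right (by linarith) (by positivity)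
  exact absurd hC (not_lt.2 (h4.trans h8))

end Pool.Agent.BookAvB
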