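import Pool.Agent.BookAvB.BadPL

/-!
# The hard language is decidable in polylogarithmic space
-/

set_option autoImplicit false

namespace Pool.Agent.BookAvB

open Pool.Agent.PT Pool.Agent.Book19 Pool.Agent.BookPL Pool.Agent.BookAv
open Function (update)

/-- The word `z` is long. -/
private def Lg (k : ℕ) (W : ℕ → List Bool) : Prop :=
  (Nat.log 2 (W 0).length + 2) ^ (k + 4) ≤ Nat.log 2 (W 1).length

private theorem lg_plp (k : ℕ) {t : ℕ} (ht : 1 ≤ t) : PLP t (Lg k) := by
  refine PLP.ofUP (P' := fun Y => (Nat.log 2 (sc 0 Y) + 2) ^ (k + 4) ≤ Nat.log 2 (sc 1 Y)) ?_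
    fun W => ?_
  · exact UP.le (((UF.log2 (uf_sc 0)).add (UF.const 2)).pow (k + 4)) (UF.log2 (uf_sc 1))
  · rw [sc_mkW (Nat.zero_le t), sc_mkW ht]
    rfl

private theorem up_ltT {t : ℕ} {m : List (TB t) → ℕ} (hm : UF (fun Y _ => m Y)) (i j : ℕ) :
    UP (fun (Y : List (TB t)) _ => ltT (m Y) (bit i Y) (bit j Y)) := by
  unfold ltT
  refine UP.bex (P := fun Y _ u => ¬ bit i Y u ∧ bit j Y u ∧ ∀ v < u, (bit i Y v ↔ bit j Y v))
    hm ?_
  refine (up_bit i (UF.var 0)).not.and ((up_bit j (UF.var 0)).and ?_)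
  exact UP.ball (P := fun Y _ v => (bit i Y v ↔ bit j Y v)) (UF.var 0)
    ((up_bit i (UF.var 0)).iff (up_bit j (UF.var 0)))

/-- The statement on the truth table `W 3`. -/
private theorem snd_plp (H : ∀ (A : Type) [Fintype A] (L : Set (List A)), InNPc A L → InPL A L)
    {E : Set (List (Bool ⊕ Bool))} (hE : InPL _ E) (k : ℕ) :
    PLP 3 (fun W => ((W 3).length = Fm k (mkW 3 W) ∧
      ltT (Fm k (mkW 3 W)) (bt (W 3)) (bt (W 2))) → (Lg k W ∧ BadE E k (W 0).length (W 3))) := by
  refine PLP.imp ?_ ?_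
  · refine PLP.ofUP (P' := fun Y => sc 3 Y = Fm k Y ∧ ltT (Fm k Y) (bit 3 Y) (bit 2 Y)) ?_
      fun W => ?_
    · exact (UP.eq (uf_sc 3) (uf_Fm k)).and (up_ltT (uf_Fm k) 3 2)
    · rw [sc_mkW (by norm_num)]
      unfold ltT
      simp only [bit_mkW (show 3 ≤ 3 by norm_num), bit_mkW (show 2 ≤ 3 by norm_num)]
  · refine (PLP.sub (r := 3) (bad_plp H hE k) (fun i W => if i = 2 then W 3 else W i)
      (fun i Y => if i = 2 then sc 3 Y else sc i Y)
      (fun i Y p => if i = 2 then bit 3 Y p else bit i Y p) (fun i hi => ?_) (fun i hi => ?_)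
      (fun W i hi => ?_)).congr fun W => ?_
    · by_cases h : i = 2
      · simpa only [h, if_true] using uf_sc 3
      · simpa only [h, if_false] using uf_sc i
    · by_cases h : i = 2
      · simpa only [h, if_true] using up_bit 3 (UF.var 0)
      · simpa only [h, if_false] using up_bit i (UF.var 0)
    · by_cases h : i = 2
      · simp only [h, if_true]
        rw [sc_mkW (by norm_num)]
        exact ⟨rfl, fun p _ => (bit_mkW (by norm_num) W p).symm⟩
      · simp only [h, if_false]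
        rw [sc_mkW (by omega)]
        exact ⟨rfl, fun p _ => (bit_mkW (by omega) W p).symm⟩
    · simp [Lg]

/-- The value at `x` is looked up in the truth table. -/
private theorem look_plp (k : ℕ) :
    PLP 2 (fun W => (W 2).length = Fm k (mkW 2 W) ∧ ∃ v < Fm k (mkW 2 W),
      (∀ j < Nat.log 2 (W 0).length ^ (k + 2), (v.testBit j = true ↔ bt (W 0) j)) ∧
        bt (W 2) v) := by
  refine PLP.ofUP (P' := fun Y => sc 2 Y = Fm k Y ∧ ∃ v, v < Fm k Y ∧
    ((∀ j, j < Nat.log 2 (sc 0 Y) ^ (k + 2) → (v.testBit j = true ↔ bit 0 Y j)) ∧ bit 2 Y v)) ?_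
    fun W => ?_
  · refine (UP.eq (uf_sc 2) (uf_Fm k)).and (UP.bex (P := fun Y _ v =>
      (∀ j, j < Nat.log 2 (sc 0 Y) ^ (k + 2) → (v.testBit j = true ↔ bit 0 Y j)) ∧ bit 2 Y v)
      (uf_Fm k) ?_)
    refine UP.and ?_ (up_bit 2 (UF.var 0))
    refine UP.ball (P := fun Y e j => ((e 0).testBit j = true ↔ bit 0 Y j))
      ((UF.log2 (uf_sc 0)).pow (k + 2)) ?_
    exact (UP.testBit (UF.var 1) (UF.var 0)).iff (up_bit 0 (UF.var 0))
  · rw [sc_mkW (by norm_num), sc_mkW (by norm_num)]
    simp only [bit_mkW (show 0 ≤ 2 by norm_num), bit_mkW (show 2 ≤ 2 by norm_num)]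

/-- `x ∈ hardE E k` iff there is `z` with `(log |x| + 2) ^ (k + 4) ≤ log |z| <
(log |x| + 2) ^ (k + 5)` and `t` such that ...; `exLog` for `z`, `exU` for `t`, `allU` for `t'`. -/
theorem hardE_inPL (H : ∀ (A : Type) [Fintype A] (L : Set (List A)), InNPc A L → InPL A L)
    {E : Set (List (Bool ⊕ Bool))} (hE : InPL _ E) (k : ℕ) : InPL Bool (hardE E k) := by
  have h2 := ((look_plp k).and ((bad_plp H hE k).not)).and
    (PLP.allU H (snd_plp H hE k) (uf_Fm (t := 2) k))
  have h1 : PLP 1 (fun W => Lg k W ∧ W 0 ∈ hardE E k) := by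
    refine ((lg_plp k le_rfl).and (PLP.exU H h2 (uf_Fm (t := 1) k))).congr fun W => ?_
    refine and_congr_right fun h => ?_
    have hF1 : Fm k (mkW 1 W) = tm k (W 0).length := Fm_eq k le_rfl h
    have hF2 : ∀ t : List Bool, Fm k (mkW 2 (update W (1 + 1) t)) = tm k (W 0).length := fun t => by
      rw [Fm_eq k (by norm_num)]
      · simp
      · simpa [Lg] using h
    have hF3 : ∀ t t' : List Bool, Fm k (mkW 3 (update (update W (1 + 1) t) (2 + 1) t')) =
        tm k (W 0).length := fun t t' => by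
      rw [Fm_eq k (by norm_num)]
      · simp
      · simpa [Lg] using h
    have hL : ∀ t t' : List Bool, Lg k (update (update W (1 + 1) t) (2 + 1) t') := fun t t' => by
      simpa [Lg] using h
    have e0 : ∀ t : List Bool, update W (1 + 1) t 0 = W 0 := fun t => by simp
    have e1 : ∀ t : List Bool, update W (1 + 1) t 1 = W 1 := fun t => by simp
    have e2 : ∀ t : List Bool, update W (1 + 1) t 2 = t := fun t => by simp
    have e3 : ∀ t t' : List Bool, update (update W (1 + 1) t) (2 + 1) t' 3 = t' := fun t t' => by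
      simp
    have e4 : ∀ t t' : List Bool, update (update W (1 + 1) t) (2 + 1) t' 2 = t := fun t t' => by
      simp
    have e5 : ∀ t t' : List Bool, update (update W (1 + 1) t) (2 + 1) t' 0 = W 0 := fun t t' => by
      simp
    simp only [hF1, hF2, hF3, hL, e0, e1, e2, e3, e4, e5]
    constructor
    · rintro ⟨t, _, ⟨⟨ht, v, hv, hv1, hv2⟩, hb⟩, hf⟩
      exact ⟨t, ht, fun hbad => hb ⟨h, hbad⟩, fun t' ht' hlt => (hf t' ht'.le ⟨ht', hlt⟩).2,
        v, hv, hv1, hv2⟩
    · rintro ⟨t, ht, hb, hf, v, hv, hv1, hv2⟩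
      exact ⟨t, ht.le, ⟨⟨ht, v, hv, hv1, hv2⟩, fun hbad => hb hbad.2⟩,
        fun t' _ h' => ⟨trivial, hf t' h'.1 h'.2⟩⟩
  have h0 := PLP.toOne (PLP.exLog H h1 (k + 5))
  have hset : hardE E k = {x : List Bool | ∃ w : List Bool, Nat.log 2 w.length <
      (Nat.log 2 (∑ i ∈ Finset.range (0 + 1), ((fun _ => x : ℕ → List Bool) i).length) + 2) ^
        (k + 5) ∧
      (Lg k (update (fun _ => x) (0 + 1) w) ∧ update (fun _ => x) (0 + 1) w 0 ∈ hardE E k)} := by
    ext x
    simp only [Set.mem_ofPred_eq, zero_add, Finset.sum_range_one]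
    constructor
    · intro hx
      refine ⟨List.replicate (2 ^ (Nat.log 2 x.length + 2) ^ (k + 4)) true, ?_, ?_, ?_⟩
      · rw [List.length_replicate, Nat.log_pow (by norm_num)]
        exact Nat.pow_lt_pow_right (by omega) (by omega)
      · have h1 : update (fun _ => x) 1
            (List.replicate (2 ^ (Nat.log 2 x.length + 2) ^ (k + 4)) true) 0 = x := by simp
        unfold Lg
        rw [Function.update_self, List.length_replicate, Nat.log_pow (by norm_num), h1]
      · simpa using hx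
    · rintro ⟨w, _, _, h⟩
      simpa using h
  rw [hset]
  exact h0

end Pool.Agent.BookAvB
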