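import Pool.Agent.BookAv.Defs
import Pool.Agent.BookAvB.Circ

/-!
# Several words in one word, and predicates on them decidable in polylogarithmic space
-/

set_option autoImplicit false

namespace Pool.Agent.BookAvB

open Pool.Agent.PT Pool.Agent.Book19 Pool.Agent.BookPL Pool.Agent.BookAv

/-- The alphabet of the words coding `t + 1` words. -/
abbrev TB (t : ℕ) : Type := Fin (t + 1) × Bool

/-- The words `W 0, ..., W t` in one word. -/
def mkW (t : ℕ) (W : ℕ → List Bool) : List (TB t) :=
  (List.finRange (t + 1)).flatMap fun i : Fin (t + 1) => (W (i : ℕ)).map fun b => (i, b)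

/-- The length of the word number `i`. -/
def sc {t : ℕ} (i : ℕ) (Y : List (TB t)) : ℕ := Y.countP fun a => decide ((a.1 : ℕ) = i)

/-- The bit number `p` of the word number `i`. -/
def bit {t : ℕ} (i : ℕ) (Y : List (TB t)) (p : ℕ) : Prop :=
  p < sc i Y ∧ ∃ a, Y[∑ j ∈ Finset.range i, sc j Y + p]? = some a ∧ a.2 = true

/-- `2 ^ e` (if `2 ^ e ≤ |Y|`). -/
noncomputable def pw {t : ℕ} (Y : List (TB t)) (e : ℕ) : ℕ :=
  cnt Y.length (fun i => i = 0 ∨ Nat.log 2 i < e)

/-- The predicate `P` on the words `W 0, ..., W t` is decidable in polylogarithmic space. -/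
def PLP (t : ℕ) (P : (ℕ → List Bool) → Prop) : Prop :=
  ∃ S : Set (List (TB t)), InPL (TB t) S ∧ ∀ W, (mkW t W ∈ S ↔ P W)

/-- Two words in one word. -/
def pr (x a : List Bool) : List (Bool ⊕ Bool) := x.map Sum.inl ++ a.map Sum.inr

/-- The word `y` with the first `ℓ` letters replaced by the digits of `v`. -/
def mixL (ℓ v : ℕ) (y : List Bool) : List Bool :=
  (List.range y.length).map fun u => if u < ℓ then v.testBit u else y.getD u false

/-- For some advice `a` of length at most `s = 2 ^ (log n) ^ k` and for some last `n - ℓ` letters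
the language `E` agrees with the truth table `t` of length `m = 2 ^ ℓ` in more than `m / 2 + m / s`
places. -/
def BadE (E : Set (List (Bool ⊕ Bool))) (k n : ℕ) (t : List Bool) : Prop :=
  ∃ a y : List Bool, a.length ≤ sz k n ∧ y.length = n ∧
    tm k n * (sz k n + 2) < 2 * sz k n *
      cnt (tm k n) (fun v => (bt t v ↔ pr (mixL (ell k n) v y) a ∈ E))

/-- The hard language: `x` is looked up in the first truth table which is not bad. -/
def hardE (E : Set (List (Bool ⊕ Bool))) (k : ℕ) : Set (List Bool) :=
  {x | ∃ t : List Bool, t.length = tm k x.length ∧ ¬ BadE E k x.length t ∧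
    (∀ t' : List Bool, t'.length = tm k x.length → ltT (tm k x.length) (bt t') (bt t) →
      BadE E k x.length t') ∧
    ∃ v < tm k x.length, (∀ j < ell k x.length, (v.testBit j = true ↔ bt x j)) ∧ bt t v}

/-- The number of words `x` of length `n` for which `E` with the advice `a` gives the right answer
to the question whether `x` is in `L`. -/
noncomputable def agreeE (L : Set (List Bool)) (E : Set (List (Bool ⊕ Bool))) (n : ℕ)
    (a : List Bool) : ℕ :=
  Nat.card {x : Fin n → Bool // (List.ofFn x ∈ L ↔ pr (List.ofFn x) a ∈ E)}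

/-! ### Circuits given by words -/

/-- The value of the variable `u`. -/
def Vl (n : ℕ) (x y : List Bool) (u : ℕ) : Prop := (u < n ∧ bt x u) ∨ (n ≤ u ∧ bt y (u - n))

/-- The word asked for by the gate `j` of the circuit given by `a`. -/
noncomputable def qry (n s : ℕ) (x a y : List Bool) (j : ℕ) : List Bool := by
  classical
  exact (List.range (cnt s (fun r => bt a (2 * s * (n + s) + s + (j * s + r))))).map fun r =>
    decide (∃ u < n + s, Vl n x y u ∧
      bt a (2 * s * (n + s) + s + s * s + ((j * s + r) * (n + s) + u)))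

/-- The circuit of size `s = 2 ^ (log n) ^ k` given by `a`, with oracle `B`, accepts `x`. -/
def EvP (B : Set (List Bool)) (k : ℕ) (x a : List Bool) : Prop :=
  sz k x.length ≤ a.length ∧ ∃ y : List Bool, y.length = sz k x.length ∧
    (∀ i < sz k x.length, ∃ u < x.length + sz k x.length,
      (Vl x.length x y u ∧ bt a ((i * (x.length + sz k x.length) + u) * 2 + 1)) ∨
      (¬ Vl x.length x y u ∧ bt a ((i * (x.length + sz k x.length) + u) * 2))) ∧
    ∀ j < sz k x.length,
      bt a (2 * sz k x.length * (x.length + sz k x.length) + j) →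
      (bt y j ↔ qry x.length (sz k x.length) x a y j ∈ B)

/-- The length of the words coding the circuits. -/
def DD (n s : ℕ) : ℕ := 2 * s * (n + s) + s + s * s + s * s * (n + s)

end Pool.Agent.BookAvB
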