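import Pool.Agent.BookAvB.Defs
import Pool.Agent.BookAv.Exist
import Pool.Agent.BookAv.Sizes
import Pool.Agent.BookAv.First

/-!
# The first good truth table
-/

set_option autoImplicit false

namespace Pool.Agent.BookAvB

open Filter Pool.Agent.PT Pool.Agent.Book19 Pool.Agent.BookPL Pool.Agent.BookAv

private theorem goodE_card (s n : ℕ) :
    Fintype.card ((Σ j : Fin (s + 1), (Fin j → Bool)) × (Fin n → Bool)) ≤ 2 ^ (s + 1 + n) := by
  rw [Fintype.card_prod, Fintype.card_sigma]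
  simp only [Fintype.card_fun, Fintype.card_fin, Fintype.card_bool]
  rw [pow_add 2 (s + 1) n]
  refine Nat.mul_le_mul_right _ ?_
  rw [← Finset.sum_range fun j => 2 ^ j]
  have h := Nat.geomSum_eq (m := 2) le_rfl (s + 1)
  rw [h]
  simp

private theorem ofFn_getD {α : Type} (w : List α) (n : ℕ) (h : w.length = n) :
    ∃ g : Fin n → α, List.ofFn g = w := by
  subst h
  exact ⟨w.get, List.ofFn_get w⟩

private theorem sz_pos (k n : ℕ) : 0 < sz k n := by
  unfold sz
  positivity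

/-- From `exists_far` for the functions `v ↦ decide (pr (mixL ℓ v y) a ∈ E)`; there are at most
`2 ^ (s + 1) * 2 ^ n` pairs `(a, y)`. -/
theorem exists_goodE (E : Set (List (Bool ⊕ Bool))) (k n : ℕ)
    (h : (sz k n + 1 + n) * sz k n ^ 2 < 2 * tm k n) :
    ∃ t : List Bool, t.length = tm k n ∧ ¬ BadE E k n t := by
  classical
  have hs := sz_pos k n
  set s := sz k n with hsd
  set m := tm k n with hmd
  set ℓ := ell k n with hld
  have hs' : (0 : ℝ) < s := Nat.cast_pos.2 hs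
  have hcard : (Fintype.card ((Σ j : Fin (s + 1), (Fin j → Bool)) × (Fin n → Bool)) : ℝ) <
      Real.exp (2 * m / s ^ 2) := by
    have h0 : (Fintype.card ((Σ j : Fin (s + 1), (Fin j → Bool)) × (Fin n → Bool)) : ℝ) ≤
        ((2 ^ (s + 1 + n) : ℕ) : ℝ) := by exact_mod_cast goodE_card s n
    refine lt_of_le_of_lt h0 ?_
    set K := s + 1 + n with hK
    have h1 : ((2 ^ K : ℕ) : ℝ) ≤ Real.exp K := by
      have h2 : (2 : ℝ) ≤ Real.exp 1 := by
        have := Real.add_one_le_exp (1 : ℝ)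
        linarith
      have h3 : (2 : ℝ) ^ K ≤ Real.exp 1 ^ K := pow_le_pow_left₀ (by norm_num) h2 K
      rw [← Real.exp_nat_mul, mul_one] at h3
      push_cast
      exact h3
    refine lt_of_le_of_lt h1 (Real.exp_lt_exp.2 ?_)
    rw [lt_div_iff₀ (by positivity)]
    exact_mod_cast h
  obtain ⟨t, ht⟩ := exists_far m s hs
    (fun (ay : (Σ j : Fin (s + 1), (Fin j → Bool)) × (Fin n → Bool)) (v : Fin m) =>
    decide (pr (mixL ℓ v (List.ofFn ay.2)) (List.ofFn ay.1.2) ∈ E)) hcard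
  refine ⟨List.ofFn t, List.length_ofFn, ?_⟩
  rintro ⟨a, y, ha, hy, hC⟩
  rw [← hsd] at ha hC
  rw [← hmd] at hC
  obtain ⟨r, hr⟩ : ∃ r, a.length = r := ⟨_, rfl⟩
  obtain ⟨a', rfl⟩ := ofFn_getD a r hr
  obtain ⟨y', rfl⟩ := ofFn_getD y n hy
  rw [List.length_ofFn] at ha
  have h1 := ht (⟨⟨_, Nat.lt_succ_of_le ha⟩, a'⟩, y')
  have h2 : BookAv.cnt m (fun v => (bt (List.ofFn t) v ↔
        pr (mixL ℓ v (List.ofFn y')) (List.ofFn a') ∈ E)) =
      (Finset.univ.filter fun v : Fin m =>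
        t v = decide (pr (mixL ℓ v (List.ofFn y')) (List.ofFn a') ∈ E)).card := by
    unfold BookAv.cnt
    rw [Finset.sum_range, Finset.card_filter]
    refine Finset.sum_congr rfl fun v _ => ?_
    have h3 : (bt (List.ofFn t) v ↔ pr (mixL ℓ v (List.ofFn y')) (List.ofFn a') ∈ E) ↔
        t v = decide (pr (mixL ℓ v (List.ofFn y')) (List.ofFn a') ∈ E) := by
      have h4 : bt (List.ofFn t) v ↔ t v = true := by
        unfold bt
        rw [List.getElem?_ofFn]
        simp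
      rw [h4]
      by_cases hA : pr (mixL ℓ v (List.ofFn y')) (List.ofFn a') ∈ E
      · simp [hA]
      · simp [hA]
    by_cases hh : t v = decide (pr (mixL ℓ v (List.ofFn y')) (List.ofFn a') ∈ E)
    · rw [if_pos hh]
      exact if_pos (h3.2 hh)
    · rw [if_neg hh]
      exact if_neg (fun h5 => hh (h3.1 h5))
  rw [← hld, h2] at hC
  exact absurd h1 (not_le.2 hC)

theorem sizesE (k : ℕ) : ∀ᶠ n in atTop, 2 ≤ n ∧ ell k n ≤ n ∧
    (sz k n + 1 + n) * sz k n ^ 2 < 2 * tm k n := by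
  refine (sizes k).mono fun n hn => ⟨hn.1, hn.2.1, lt_of_le_of_lt ?_ hn.2.2⟩
  have hs := sz_pos k n
  refine Nat.mul_le_mul_right _ ?_
  have h1 : sz k n + 1 ≤ 2 * sz k n * (n + sz k n) := by
    calc sz k n + 1 ≤ 2 * sz k n * 1 := by omega
      _ ≤ 2 * sz k n * (n + sz k n) := Nat.mul_le_mul_left _ (by omega)
  omega

/-- `hardE` is given by the first good truth table. -/
theorem exists_table (E : Set (List (Bool ⊕ Bool))) (k n : ℕ)
    (h : ∃ t : List Bool, t.length = tm k n ∧ ¬ BadE E k n t) :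
    ∃ T : List Bool, T.length = tm k n ∧ ¬ BadE E k n T ∧
      ∀ x : List Bool, x.length = n → (x ∈ hardE E k ↔
        ∃ v < tm k n, (∀ j < ell k n, (v.testBit j = true ↔ bt x j)) ∧ bt T v) := by
  obtain ⟨T, ⟨t, ht, hag, hbad⟩, hmin⟩ := exists_first (tm k n)
    (fun T => ∃ t : List Bool, t.length = tm k n ∧ (∀ v < tm k n, (T v ↔ bt t v)) ∧
      ¬ BadE E k n t) (by
        rintro T T' hTT' ⟨t, h1, h2, h3⟩
        exact ⟨t, h1, fun v hv => (hTT' v hv).symm.trans (h2 v hv), h3⟩) (by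
        obtain ⟨t, h1, h2⟩ := h
        exact ⟨bt t, t, h1, fun _ _ => Iff.rfl, h2⟩)
  have hlt : ∀ T' : ℕ → Prop, ltT (tm k n) T' (bt t) → ltT (tm k n) T' T := by
    rintro T' ⟨i, hi, h1, h2, h3⟩
    exact ⟨i, hi, h1, (hag i hi).2 h2, fun j hj => (h3 j hj).trans (hag j (hj.trans hi)).symm⟩
  refine ⟨t, ht, hbad, fun x hx => ?_⟩
  subst hx
  constructor
  · rintro ⟨t1, h1, h2, h3, v, hv, h4, h5⟩
    refine ⟨v, hv, h4, ?_⟩
    rcases ltT_trich (tm k x.length) (bt t) (bt t1) with h6 | h6 | h6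
    · exact (h6 v hv).2 h5
    · exact absurd (h3 t ht h6) hbad
    · exact absurd ⟨t1, h1, fun _ _ => Iff.rfl, h2⟩ (hmin (bt t1) (hlt _ h6))
  · rintro ⟨v, hv, h4, h5⟩
    refine ⟨t, ht, hbad, fun t' ht' hlt' => ?_, v, hv, h4, h5⟩
    by_contra hcon
    exact hmin (bt t') (hlt _ hlt') ⟨t', ht', fun _ _ => Iff.rfl, hcon⟩

end Pool.Agent.BookAvB
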