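import Pool.Agent.BookAvB.Core

set_option autoImplicit false

namespace Pool.Agent.Results.MP_d19090_lc.HardOracle

open Pool.Agent.Book19 Pool.Agent.BookPL Pool.Agent.BookAvB

/-- For every `k` and every `B` in POLYLOGSPACE: either NP is not contained in POLYLOGSPACE, or
POLYLOGSPACE contains a language which is hard on average, at all large lengths, for the
nondeterministic circuits of size `2 ^ (log n) ^ k` with oracle gates for `B`. -/
theorem result (k : ℕ) (B : Set (List Bool)) (hB : InPL Bool B) :
    ¬ ((∀ (A : Type) [Fintype A] (L : Set (List A)), InNPc A L → InPL A L) ∧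
      ∀ L : Set (List Bool), InPL Bool L → PredictableB B k L) :=
  core k B hB

end Pool.Agent.Results.MP_d19090_lc.HardOracle
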