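import Pool.Agent.BookAvB.Defs

/-!
# A normal form of the languages in POLYLOGSPACE
-/

set_option autoImplicit false

namespace Pool.Agent.BookAvB

open Pool.Agent.PT Pool.Agent.Book19 Pool.Agent.BookPL Pool.Agent.BookAv

/-- The converse of `inPL_of_while`; the proof is the proof of `InPL.comap` for `Z = id`. -/
theorem exists_while {A : Type} [Fintype A] {S : Set (List A)} (hS : InPL A S) :
    ∃ (m : ℕ) (F : ℕ → List A → (ℕ → ℕ) → ℕ) (bd : ℕ → ℕ), 2 ≤ m ∧ (∀ j, UF (F j)) ∧ QB bd ∧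
      ∀ x : List A, ∃ s ≤ bd x.length, (∀ i < s, (vstep m F x)^[i] e₀ 0 ≠ 0) ∧
        (vstep m F x)^[s] e₀ 0 = 0 ∧ (∀ i ≤ s, ∀ j, (vstep m F x)^[i] e₀ j ≤ bd x.length) ∧
        (x ∈ S ↔ (vstep m F x)^[s] e₀ 1 ≠ 0) := by
  obtain ⟨M, c, hM⟩ := hS
  set Sb : ℕ → ℕ := fun n => (Nat.log 2 n + 2) ^ c with hSb
  set K : ℕ → ℕ := fun n => bnd M n (Sb n) with hK
  have hqS : QB (fun n => 2 ^ Sb n) := QB.id.two_pow_log c
  obtain ⟨k, hk⟩ : ∃ k, wb M ≤ 2 ^ k := ⟨wb M, Nat.lt_two_pow_self.le⟩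
  have hqK : QB K := by
    have h1 : QB (fun n => (letI := M.finQ; Fintype.card M.Q) + n + 2 ^ Sb n +
        (2 ^ Sb n) ^ k + 3) :=
      ((((QB.const _).add QB.id).add hqS).add (hqS.pow k)).add (QB.const 3)
    refine h1.of_le fun n => ?_
    simp only [hK, bnd]
    have e1 : Sb n ≤ 2 ^ Sb n := Nat.lt_two_pow_self.le
    have e2 : wb M ^ Sb n ≤ (2 ^ Sb n) ^ k := by
      calc wb M ^ Sb n ≤ (2 ^ k) ^ Sb n := Nat.pow_le_pow_left hk _
        _ = (2 ^ Sb n) ^ k := by rw [← pow_mul, ← pow_mul, Nat.mul_comm]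
    omega
  refine ⟨nE M, simF M id, fun n => K n ^ nE M + K n + 1, by unfold nE; omega,
    uf_simF M id (fun a => UP.sym a (UF.var 0)), ((hqK.pow _).add hqK).add (QB.const 1),
    fun z => ?_⟩
  obtain ⟨t, b, hg, hs, hb⟩ := hM z
  set S := (Nat.log 2 z.length + 2) ^ c with hS
  have hbK : bnd M z.length S = K z.length := rfl
  have hpos : ∀ s, (M.conf z s).pos ≤ z.length + 1 := conf_pos_le M z
  have hit : ∀ i ≤ t, (vstep (nE M) (simF M id) z)^[i] e₀ = encE M S (M.conf z i) := by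
    intro i
    induction i with
    | zero => intro _; exact (encE_init M S).symm
    | succ i ih =>
      intro hi
      rw [Function.iterate_succ_apply', ih (by omega)]
      have e1 : M.conf z (i + 1) = M.step z (M.conf z i) := by
        unfold OTM.conf
        rw [Function.iterate_succ_apply']
      rw [e1]
      refine vstep_enc M id z S _ (hs i (by omega)) ?_ (hpos i) (hg.2 i (by omega))
      rw [id_eq, ← e1]
      exact hs (i + 1) hi
  have hlt : ∀ i ≤ t, ∀ j, encE M S (M.conf z i) j < K z.length := fun i hi j =>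
    (encE_lt M z S _ (hs i hi) (hpos i) j).trans_le hbK.le
  have ht : t < K z.length ^ nE M :=
    (time_le M z t S b hg hs).trans_le (Nat.pow_le_pow_left hbK.le _)
  obtain ⟨o1, o2, o3⟩ := vstep_out M id z S (M.conf z t) (hs t le_rfl) (hpos t) b hg.1
  have hlast : (vstep (nE M) (simF M id) z)^[t + 1] e₀ =
      vstep (nE M) (simF M id) z (encE M S (M.conf z t)) := by
    rw [Function.iterate_succ_apply', hit t le_rfl]
  refine ⟨t + 1, ?_, fun i hi => ?_, ?_, fun i hi j => ?_, ?_⟩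
  · change t + 1 ≤ K z.length ^ nE M + K z.length + 1
    omega
  · rw [hit i (by omega)]
    simp [encE]
  · rw [hlast, o1]
  · rcases Nat.lt_or_ge i (t + 1) with h | h
    · rw [hit i (by omega)]
      have := hlt i (by omega) j
      change _ ≤ K z.length ^ nE M + K z.length + 1
      omega
    · obtain rfl : i = t + 1 := by omega
      rw [hlast]
      have h1 := o3 j
      have h2 := hlt t le_rfl j
      change _ ≤ K z.length ^ nE M + K z.length + 1
      omega
  · rw [hlast, o2, hb]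
    cases b <;> simp

end Pool.Agent.BookAvB
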