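import Pool.Agent.BookAvB.Sub
import Pool.Agent.BookAv.QE
import Pool.Agent.Book19.UNum

/-!
# Closure properties: quantifiers, if NP is contained in POLYLOGSPACE
-/

set_option autoImplicit false

namespace Pool.Agent.BookAvB

open Pool.Agent.PT Pool.Agent.Book19 Pool.Agent.BookPL Pool.Agent.BookAv
open Function (update)

variable {t : ℕ} {P : (ℕ → List Bool) → Prop}

/-- From `qe`, with `InPL.comap` for the relabelling `inl (i, b) ↦ (i.castSucc, b)`,
`inr b ↦ (last, b)` of the letters. -/
theorem PLP.exLog (H : ∀ (A : Type) [Fintype A] (L : Set (List A)), InNPc A L → InPL A L)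
    (hP : PLP (t + 1) P) (c : ℕ) :
    PLP t (fun W => ∃ w : List Bool, Nat.log 2 w.length <
      (Nat.log 2 (∑ i ∈ Finset.range (t + 1), (W i).length) + 2) ^ c ∧
        P (update W (t + 1) w)) := by
  obtain ⟨S', hS', hSP⟩ := hP
  set φ : TB t ⊕ Bool → TB (t + 1) :=
    Sum.elim (fun a => (a.1.castSucc, a.2)) (fun b => (Fin.last (t + 1), b)) with hφ
  have hS : InPL _ {y : List (TB t ⊕ Bool) | y.map φ ∈ S'} := by
    refine hS'.comap (fun y => y.map φ) (fun n => n) QB.id (fun u => by simp) fun a => ?_
    refine (UP.fex fun b => (UP.const (φ b = a)).and (UP.sym b (UF.var 0))).congr fun u e => ?_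
    rw [List.getElem?_map, Option.map_eq_some_iff]
    exact exists_congr fun b => and_comm
  refine ⟨_, qe H hS c, fun W => ?_⟩
  simp only [Set.mem_ofPred_eq]
  refine exists_congr fun w => ?_
  rw [length_mkW, ← hSP, mkW_update, List.map_append, List.map_map, List.map_map]
  rfl

/-- The first words. -/
def res (Y : List (TB (t + 1))) : List (TB t) :=
  (Y.take (Y.length - sc (t + 1) Y)).map fun a => (⟨min a.1 t, by omega⟩, a.2)

theorem res_mkW (W : ℕ → List Bool) : res (mkW (t + 1) W) = mkW t W := by
  have h := mkW_update (t := t) W (W (t + 1))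
  rw [Function.update_eq_self] at h
  have h1 : (mkW (t + 1) W).length - sc (t + 1) (mkW (t + 1) W) =
      ((mkW t W).map (fun a => ((a.1.castSucc, a.2) : TB (t + 1)))).length := by
    rw [sc_mkW le_rfl, h]
    simp
  unfold res
  rw [h1]
  conv_lhs => rw [h]
  rw [List.take_left, List.map_map]
  conv_rhs => rw [← List.map_id (mkW t W)]
  refine List.map_congr_left fun a _ => ?_
  refine Prod.ext (Fin.ext ?_) rfl
  have := a.1.2
  simp only [Function.comp_apply, Fin.val_castSucc, id_eq]
  omega

/-- Terms for the first words are terms for all words. -/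
theorem uf_res {F : List (TB t) → ℕ} (hF : UF (fun Y _ => F Y)) :
    UF (fun (Y : List (TB (t + 1))) _ => F (res Y)) := by
  refine uf_word (f := fun Y _ => F Y) hF res ?_ fun a => ?_
  · refine (UF.len.sub (uf_sc (t + 1))).congr fun Y e => ?_
    unfold res
    rw [List.length_map, List.length_take]
    omega
  · refine ((UP.lt (UF.var 0) (UF.len.sub (uf_sc (t + 1)))).and
      (UP.fex fun c : TB (t + 1) => (UP.const
        (((⟨min c.1 t, by omega⟩, c.2) : TB t) = a)).and (UP.sym c (UF.var 0)))).congr
      fun Y e => ?_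
    unfold res
    rw [List.getElem?_map, List.getElem?_take, Option.map_eq_some_iff]
    by_cases h : e 0 < Y.length - sc (t + 1) Y
    · rw [if_pos h]
      constructor
      · rintro ⟨-, c, h1, h2⟩
        exact ⟨c, h2, h1⟩
      · rintro ⟨c, h1, h2⟩
        exact ⟨h, c, h2, h1⟩
    · rw [if_neg h]
      constructor
      · rintro ⟨h1, -⟩
        exact absurd h1 h
      · rintro ⟨c, h1, -⟩
        exact absurd h1 (by simp)

end Pool.Agent.BookAvB
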