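import Pool.Agent.BookAvB.Quant

/-!
# Quantifiers over words with lengths bounded by terms
-/

set_option autoImplicit false

namespace Pool.Agent.BookAvB

open Pool.Agent.PT Pool.Agent.Book19 Pool.Agent.BookPL Pool.Agent.BookAv
open Function (update)

variable {t : ℕ} {P : (ℕ → List Bool) → Prop}

private theorem quantU_log {N n c : ℕ} (h : n ≤ (N + 2) ^ c) :
    Nat.log 2 n < (Nat.log 2 N + 2) ^ (c + 1) := by
  have h1 : N + 2 ≤ 2 ^ (Nat.log 2 N + 2) := by
    have h2 : N < 2 ^ (Nat.log 2 N + 1) := Nat.lt_pow_succ_log_self (by norm_num) N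
    have h3 : 1 ≤ 2 ^ (Nat.log 2 N + 1) := Nat.one_le_two_pow
    have h4 : 2 ^ (Nat.log 2 N + 2) = 2 * 2 ^ (Nat.log 2 N + 1) := by ring
    omega
  have h2 : n ≤ 2 ^ ((Nat.log 2 N + 2) * c) := by
    rw [pow_mul]
    exact h.trans (Nat.pow_le_pow_left h1 c)
  have h3 : Nat.log 2 n ≤ (Nat.log 2 N + 2) * c := by
    have h4 := Nat.log_mono_right (b := 2) h2
    rwa [Nat.log_pow (by norm_num)] at h4
  refine lt_of_le_of_lt h3 ?_
  have h5 : c < 2 ^ c := Nat.lt_two_pow_self
  have h6 : 2 ^ c ≤ (Nat.log 2 N + 2) ^ c := Nat.pow_le_pow_left (by omega) c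
  rw [pow_succ, mul_comm]
  exact Nat.mul_lt_mul_of_pos_right (h5.trans_le h6) (by omega)

private theorem quantU_mkW (W : ℕ → List Bool) (w : List Bool) :
    mkW t (update W (t + 1) w) = mkW t W := by
  refine mkW_congr fun i hi => ?_
  rw [Function.update_of_ne (by omega)]

/-- `F Y` is polynomially bounded (`eval_bound`), so this follows from `exLog`, `uf_res` and
`PLP.and`. -/
theorem PLP.exU (H : ∀ (A : Type) [Fintype A] (L : Set (List A)), InNPc A L → InPL A L)
    (hP : PLP (t + 1) P) {F : List (TB t) → ℕ} (hF : UF (fun Y _ => F Y)) :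
    PLP t (fun W => ∃ w : List Bool, w.length ≤ F (mkW t W) ∧ P (update W (t + 1) w)) := by
  obtain ⟨tm, htm⟩ := hF
  obtain ⟨T, hT, hb⟩ := eval_bound tm
  obtain ⟨hmono, c, hc⟩ := hT
  have hbd : ∀ Y : List (TB t), F Y ≤ (Y.length + 2) ^ c := by
    intro Y
    have e : tm.eval Y (fun _ => 0) = F Y := htm Y fun _ => 0
    rw [← e]
    exact (hb Y.length Y _ le_rfl fun _ => Nat.zero_le _).trans (hc _)
  have h1 : PLP (t + 1) (fun W => (W (t + 1)).length ≤ F (mkW t W)) :=
    PLP.ofUP (P' := fun Y => sc (t + 1) Y ≤ F (res Y))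
      (UP.le (uf_sc (t + 1)) (uf_res ⟨tm, htm⟩)) fun W => by
        rw [res_mkW, sc_mkW le_rfl]
  refine (PLP.exLog H (h1.and hP) (c + 1)).congr fun W => ?_
  simp only [quantU_mkW, Function.update_self]
  constructor
  · rintro ⟨w, _, h2, h3⟩
    exact ⟨w, h2, h3⟩
  · rintro ⟨w, h2, h3⟩
    refine ⟨w, ?_, h2, h3⟩
    rw [← length_mkW]
    exact quantU_log (h2.trans (hbd _))

theorem PLP.allU (H : ∀ (A : Type) [Fintype A] (L : Set (List A)), InNPc A L → InPL A L)
    (hP : PLP (t + 1) P) {F : List (TB t) → ℕ} (hF : UF (fun Y _ => F Y)) :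
    PLP t (fun W => ∀ w : List Bool, w.length ≤ F (mkW t W) → P (update W (t + 1) w)) :=
  (PLP.exU H hP.not hF).not.congr fun W => by
    push Not
    rfl

/-- Quantification over numbers: the number `v` is given as a word of length `v`. -/
theorem PLP.ballU (H : ∀ (A : Type) [Fintype A] (L : Set (List A)), InNPc A L → InPL A L)
    (hP : PLP (t + 1) P) {F : List (TB t) → ℕ} (hF : UF (fun Y _ => F Y)) :
    PLP t (fun W => ∀ v < F (mkW t W), P (update W (t + 1) (List.replicate v true))) := by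
  have h1 : PLP (t + 1) (fun W => (W (t + 1)).length < F (mkW t W) ∧
      ∀ p < (W (t + 1)).length, bt (W (t + 1)) p) := by
    refine PLP.ofUP (P' := fun Y => sc (t + 1) Y < F (res Y) ∧
      ∀ p < sc (t + 1) Y, bit (t + 1) Y p) ?_ fun W => ?_
    · refine UP.and (UP.lt (uf_sc (t + 1)) (uf_res hF)) ?_
      exact UP.ball (P := fun Y _ p => bit (t + 1) Y p) (uf_sc (t + 1))
        (up_bit (t + 1) (UF.var 0))
    · rw [res_mkW, sc_mkW le_rfl]
      simp only [bit_mkW le_rfl]
  refine (PLP.allU H (h1.imp hP) hF).congr fun W => ?_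
  simp only [quantU_mkW, Function.update_self]
  constructor
  · intro h v hv
    refine h (List.replicate v true) (by simpa using hv.le) ⟨by simpa using hv, ?_⟩
    intro p hp
    rw [List.length_replicate] at hp
    simp [bt, hp]
  · rintro h w _ ⟨h2, h3⟩
    have hw : w = List.replicate w.length true := by
      apply List.ext_getElem?
      intro p
      rw [List.getElem?_replicate]
      split_ifs with hp
      · exact h3 p hp
      · exact List.getElem?_eq_none (not_lt.1 hp)
    rw [hw]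
    exact h w.length h2

end Pool.Agent.BookAvB
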