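import Pool.Agent.BookAvB.Closure
import Pool.Agent.BookAvB.Blocks
import Pool.Agent.BookAvB.BlocksUF
import Pool.Agent.Book19.UNum

/-!
# Closure properties: substitution of words
-/

set_option autoImplicit false

namespace Pool.Agent.BookAvB

open Pool.Agent.PT Pool.Agent.Book19 Pool.Agent.BookPL Pool.Agent.BookAv

variable {t r : ℕ} {P Q : (ℕ → List Bool) → Prop}

/-- Functions of the word given by terms are polynomially bounded. -/
private theorem Sub_bound {A : Type} {f : List A → ℕ} (hf : UF (fun Y _ => f Y)) :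
    ∃ T, PB T ∧ ∀ Y, f Y ≤ T Y.length := by
  obtain ⟨m, hm⟩ := hf
  obtain ⟨T, hT, h⟩ := eval_bound m
  refine ⟨T, hT, fun Y => ?_⟩
  have h1 : m.eval Y (fun _ => 0) = f Y := hm Y (fun _ => 0)
  rw [← h1]
  exact h _ _ _ le_rfl fun _ => Nat.zero_le _

open Classical in
/-- The word with the given length and bits. -/
private noncomputable def Sub_w (len : ℕ → List (TB r) → ℕ) (B : ℕ → List (TB r) → ℕ → Prop)
    (Y : List (TB r)) (i : ℕ) : List Bool :=
  (List.range (len i Y)).map fun p => decide (B i Y p)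

private theorem Sub_length (len : ℕ → List (TB r) → ℕ) (B : ℕ → List (TB r) → ℕ → Prop)
    (Y : List (TB r)) (i : ℕ) : (Sub_w len B Y i).length = len i Y := by
  simp [Sub_w]

private theorem Sub_get (len : ℕ → List (TB r) → ℕ) (B : ℕ → List (TB r) → ℕ → Prop)
    (Y : List (TB r)) (i q : ℕ) (b : Bool) : (Sub_w len B Y i)[q]? = some b ↔
      q < len i Y ∧ (B i Y q ↔ b = true) := by
  classical
  by_cases h : q < len i Y
  · simp only [Sub_w, List.getElem?_map, List.getElem?_range h, Option.map_some, Option.some.injEq,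
      h, true_and]
    cases b <;> simp
  · have h1 : (Sub_w len B Y i)[q]? = none := by
      rw [List.getElem?_eq_none_iff, Sub_length]
      omega
    simp [h1, h]

/-- Substitution of words whose lengths and bits are given by terms: `InPL.comap` for the map
sending `Y` to the word with the blocks `i ≤ t` of length `len i Y` and bits `B i Y`. -/
theorem PLP.sub (hP : PLP t P) (g : ℕ → (ℕ → List Bool) → List Bool)
    (len : ℕ → List (TB r) → ℕ) (B : ℕ → List (TB r) → ℕ → Prop)
    (hlen : ∀ i ≤ t, UF (fun Y _ => len i Y)) (hB : ∀ i ≤ t, UP (fun Y e => B i Y (e 0)))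
    (hg : ∀ W, ∀ i ≤ t, (g i W).length = len i (mkW r W) ∧
      ∀ p < (g i W).length, (bt (g i W) p ↔ B i (mkW r W) p)) :
    PLP r (fun W => P (fun i => g i W)) := by
  classical
  obtain ⟨S, hS, hSP⟩ := hP
  have hbd : ∀ i : ℕ, ∃ T : ℕ → ℕ, PB T ∧ (i ≤ t → ∀ Y : List (TB r), len i Y ≤ T Y.length) := by
    intro i
    by_cases hi : i ≤ t
    · obtain ⟨T, h1, h2⟩ := Sub_bound (hlen i hi)
      exact ⟨T, h1, fun _ => h2⟩
    · exact ⟨_, PB.const 0, fun h => absurd h hi⟩
  choose T hT hTle using hbd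
  have hqb : ∀ m : ℕ, QB (fun n => ∑ i ∈ Finset.range m, T i n) := by
    intro m
    induction m with
    | zero => simpa using QB.const 0
    | succ m ih =>
      refine (ih.add (QB.id.comp_pb (hT m))).of_le fun n => ?_
      rw [Finset.sum_range_succ]
  refine ⟨{Y | mkW t (Sub_w len B Y) ∈ S}, ?_, fun W => ?_⟩
  · refine InPL.comap hS (fun Y => mkW t (Sub_w len B Y)) _ (hqb (t + 1)) (fun Y => ?_) ?_
    · rw [length_mkW]
      refine Finset.sum_le_sum fun i hi => ?_
      rw [Sub_length]
      exact hTle i (by have := Finset.mem_range.1 hi; omega) Y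
    · rintro ⟨i, b⟩
      have hi : (i : ℕ) ≤ t := by have := i.2; omega
      have hs : UF (fun (Y : List (TB r)) (_ : ℕ → ℕ) => ∑ j ∈ Finset.range (i : ℕ), len j Y) :=
        UF.fsum _ fun j hj => hlen j (by have := Finset.mem_range.1 hj; omega)
      have h1 : UP (fun (Y : List (TB r)) e =>
          (∑ j ∈ Finset.range (i : ℕ), len j Y ≤ e 0) ∧
          (e 0 - ∑ j ∈ Finset.range (i : ℕ), len j Y < len i Y ∧
            (B i Y (e 0 - ∑ j ∈ Finset.range (i : ℕ), len j Y) ↔ b = true))) :=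
        (UP.le hs (UF.var 0)).and ((UP.lt ((UF.var 0).sub hs) (hlen i hi)).and
          ((UP.comp₁ (P := fun Y p => B i Y p) (hB i hi) ((UF.var 0).sub hs)).iff (UP.const _)))
      refine h1.congr fun Y e => ?_
      rw [getElem?_mkW, Sub_get]
      simp only [Sub_length]
  · have h2 : mkW t (Sub_w len B (mkW r W)) = mkW t (fun i => g i W) := by
      refine mkW_congr fun i hi => ?_
      obtain ⟨h3, h4⟩ := hg W i hi
      apply List.ext_getElem?
      intro q
      by_cases hq : q < (g i W).length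
      · rw [List.getElem?_eq_getElem hq, Sub_get]
        refine ⟨by rw [← h3]; exact hq, ?_⟩
        rw [← h4 q hq, bt, List.getElem?_eq_getElem hq, Option.some.injEq]
      · rw [List.getElem?_eq_none_iff.2 (by rw [Sub_length, ← h3]; omega),
          List.getElem?_eq_none_iff.2 (by omega)]
    change mkW t (Sub_w len B (mkW r W)) ∈ S ↔ P (fun i => g i W)
    rw [h2, hSP]

private theorem Sub_map {A B : Type} [Fintype A] [Fintype B] {L : Set (List A)} (hL : InPL A L)
    (φ : B → A) : InPL B {u | u.map φ ∈ L} := by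
  refine InPL.comap hL (fun u => u.map φ) _ QB.id (fun u => (List.length_map _).le) fun a => ?_
  refine (UP.fex (fun b : B => (UP.sym b (UF.var 0)).and (UP.const (φ b = a)))).congr fun u e => ?_
  rw [List.getElem?_map, Option.map_eq_some_iff]

private theorem Sub_mkW_one (W : ℕ → List Bool) :
    mkW 1 W = (W 0).map (fun b => ((0 : Fin 2), b)) ++ (W 1).map (fun b => ((1 : Fin 2), b)) := by
  simp [mkW, List.finRange_succ]

private theorem Sub_mkW_zero (W : ℕ → List Bool) :
    mkW 0 W = (W 0).map (fun b => ((0 : Fin 1), b)) := by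
  simp [mkW, List.finRange_succ]

theorem PLP.ofPair {E : Set (List (Bool ⊕ Bool))} (hE : InPL _ E) :
    PLP 1 (fun W => pr (W 0) (W 1) ∈ E) := by
  refine ⟨_, Sub_map hE (fun a : TB 1 => if a.1 = 0 then Sum.inl a.2 else Sum.inr a.2),
    fun W => ?_⟩
  rw [Set.mem_ofPred_eq, Sub_mkW_one]
  simp [pr, Function.comp_def]

theorem PLP.toPair (h : PLP 1 P) :
    ∃ E : Set (List (Bool ⊕ Bool)), InPL _ E ∧ ∀ W, (pr (W 0) (W 1) ∈ E ↔ P W) := by
  obtain ⟨S, hS, hSP⟩ := h
  refine ⟨_, Sub_map hS (fun a : Bool ⊕ Bool => Sum.elim (fun b => ((0 : Fin 2), b))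
    (fun b => ((1 : Fin 2), b)) a), fun W => ?_⟩
  rw [Set.mem_ofPred_eq, ← hSP, Sub_mkW_one]
  simp [pr, Function.comp_def]

theorem PLP.ofOne {B : Set (List Bool)} (hB : InPL Bool B) : PLP 0 (fun W => W 0 ∈ B) := by
  refine ⟨_, Sub_map hB (fun a : TB 0 => a.2), fun W => ?_⟩
  rw [Set.mem_ofPred_eq, Sub_mkW_zero]
  simp [Function.comp_def]

theorem PLP.toOne (h : PLP 0 P) : InPL Bool {x | P (fun _ => x)} := by
  obtain ⟨S, hS, hSP⟩ := h
  have h1 := Sub_map hS (fun b : Bool => (((0 : Fin 1), b) : TB 0))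
  convert h1 using 1
  ext x
  rw [Set.mem_ofPred_eq, Set.mem_ofPred_eq, ← hSP, Sub_mkW_zero]

end Pool.Agent.BookAvB
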